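import Pool.Agent.Q51.LI.Low

/-!
# Gaps of random sets with limited independence: almost sure statements
-/

namespace Pool.Agent.Q51.LI

open Finset MeasureTheory Filter

variable {Ω : Type} [MeasurableSpace Ω]

lemma HasGap.mono {E : ℕ → Set Ω} {X Y : ℕ} {H H' : ℝ} {ω : Ω} (h : HasGap E X H ω) (hXY : X ≤ Y) (hH : H' ≤ H) :
    HasGap E Y H' ω := by
  obtain ⟨a, b, h1, h2, h3, h4, h5, h6, h7⟩ := h
  exact ⟨a, b, h1, h2, h3.trans hXY, h4, h5, h6, hH.trans h7⟩

/-- Borel and Cantelli for bounds of real probabilities. -/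
lemma ae_eventually {P : Measure Ω} [IsProbabilityMeasure P] (s : ℕ → Set Ω) (b : ℕ → ℝ) (hb : Summable b) (i₀ : ℕ)
    (h : ∀ i, i₀ ≤ i → P.real (s i) ≤ b i) : ∀ᵐ ω ∂P, ∀ᶠ i in atTop, ω ∉ s i := by
  have key : ∀ᵐ ω ∂P, ∀ᶠ i in atTop, ω ∉ s (i + i₀) := by
    refine ae_eventually_notMem ?_
    have h1 : ∀ i, P (s (i + i₀)) ≤ ENNReal.ofReal (b (i + i₀)) := by
      intro i
      rw [← ENNReal.ofReal_toReal (measure_ne_top P (s (i + i₀)))]
      exact ENNReal.ofReal_le_ofReal (h (i + i₀) (Nat.le_add_left _ _))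
    have hb' : Summable fun i => b (i + i₀) := (summable_nat_add_iff i₀).2 hb
    refine ne_top_of_le_ne_top ?_ (ENNReal.tsum_le_tsum h1)
    have h0 : ∀ i, 0 ≤ b (i + i₀) := fun i => measureReal_nonneg.trans (h (i + i₀) (Nat.le_add_left _ _))
    rw [← ENNReal.ofReal_tsum_of_nonneg h0 hb']
    exact ENNReal.ofReal_ne_top
  filter_upwards [key] with ω hω
  obtain ⟨N, hN⟩ := eventually_atTop.1 hω
  refine eventually_atTop.2 ⟨N + i₀, fun i hi => ?_⟩
  have := hN (i - i₀) (by omega)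
  rwa [Nat.sub_add_cancel (by omega)] at this

/-- the dyadic interval of a large integer -/
lemma exists_dyadic (N : ℕ) : ∀ᶠ X : ℕ in atTop, ∃ i, N ≤ i ∧ 2 ^ i ≤ X ∧ X < 2 ^ (i + 1) := by
  filter_upwards [eventually_ge_atTop (2 ^ N)] with X hX
  have hX0 : X ≠ 0 := by
    have := Nat.one_le_two_pow (n := N)
    omega
  refine ⟨Nat.log 2 X, ?_, Nat.pow_log_le_self 2 hX0, Nat.lt_pow_succ_log_self (by norm_num) X⟩
  exact (Nat.le_log_iff_pow_le (by norm_num) hX0).2 hX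

lemma log_two_pow (i : ℕ) : Real.log ((2 ^ i : ℕ) : ℝ) = i * Real.log 2 := by
  push_cast
  rw [Real.log_pow]

/-- **Independence of order `15 log X` suffices for the order of magnitude `(log X) ^ 2`.** -/
theorem ae_gaps {P : Measure Ω} [IsProbabilityMeasure P] (k : ℕ → ℕ) (E : ℕ → Set Ω)
    (h : ∀ᶠ X : ℕ in atTop, 15 * Real.log X ≤ k X ∧ IsRandomSet P (k X) X E) :
    ∀ᵐ ω ∂P, ∀ᶠ X : ℕ in atTop, HasGap E X (Real.log X ^ 2 / 200) ω ∧ ¬ HasGap E X (24 * Real.log X ^ 2) ω := by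
  obtain ⟨X₁, hX₁⟩ := eventually_atTop.1 h
  have hl2 : (0.69 : ℝ) < Real.log 2 := by have := Real.log_two_gt_d9; linarith
  have hl2' : Real.log 2 < 0.7 := by have := Real.log_two_lt_d9; linarith
  have hpow : ∀ i : ℕ, i ≤ 2 ^ i := fun i => (Nat.lt_two_pow_self).le
  -- lower bound
  have hlow : ∀ᵐ ω ∂P, ∀ᶠ i : ℕ in atTop, ω ∉ {ω | ¬ HasGap E (2 ^ i) (Real.log ((2 ^ i : ℕ) : ℝ) ^ 2 / 100) ω} := by
    refine ae_eventually _ (fun i => (Real.exp (-(Real.log 2 / 3))) ^ i) (summable_geometric_of_lt_one (Real.exp_pos _).le ?_)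
      (max X₁ 200) ?_
    · rw [Real.exp_lt_one_iff]
      linarith
    · intro i hi
      have hi1 : X₁ ≤ 2 ^ i := ((le_max_left _ _).trans hi).trans (hpow i)
      have hi2 : (200 : ℝ) ≤ i := by exact_mod_cast (le_max_right _ _).trans hi
      obtain ⟨hk, hE⟩ := hX₁ _ hi1
      refine (gap_lower ?_ hk hE).trans ?_
      · rw [log_two_pow]
        nlinarith
      · rw [log_two_pow, ← Real.exp_nat_mul]
        apply Real.exp_le_exp.2
        apply le_of_eq
        ring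
  have hupp : ∀ᵐ ω ∂P, ∀ᶠ i : ℕ in atTop, ω ∉ {ω | HasGap E (2 ^ i) (6 * Real.log ((2 ^ i : ℕ) : ℝ) ^ 2) ω} := by
    refine ae_eventually _ (fun i => (1 / 2 : ℝ) ^ i) (summable_geometric_of_lt_one (by norm_num) (by norm_num))
      (max X₁ 2) ?_
    intro i hi
    have hi1 : X₁ ≤ 2 ^ i := ((le_max_left _ _).trans hi).trans (hpow i)
    have hi2 : 2 ≤ i := (le_max_right _ _).trans hi
    obtain ⟨hk, hE⟩ := hX₁ _ hi1
    refine (gap_upper ?_ hk hE).trans ?_
    · have : 2 ^ 2 ≤ 2 ^ i := Nat.pow_le_pow_right (by norm_num) hi2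
      omega
    · push_cast
      rw [div_pow, one_pow]
  filter_upwards [hlow, hupp] with ω h1 h2
  obtain ⟨N₁, hN₁⟩ := eventually_atTop.1 h1
  obtain ⟨N₂, hN₂⟩ := eventually_atTop.1 h2
  filter_upwards [exists_dyadic (max (max N₁ N₂) 10)] with X hX
  obtain ⟨i, hi, hiX, hXi⟩ := hX
  have hi10 : (10 : ℝ) ≤ i := by exact_mod_cast (le_max_right _ _).trans hi
  have hiN₁ : N₁ ≤ i := ((le_max_left _ _).trans (le_max_left _ _)).trans hi
  have hiN₂ : N₂ ≤ i := ((le_max_right _ _).trans (le_max_left _ _)).trans hi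
  have hXpos : (0 : ℝ) < X := by
    have : 0 < X := lt_of_lt_of_le (by positivity) hiX
    exact_mod_cast this
  have l1 : (i : ℝ) * Real.log 2 ≤ Real.log X := by
    rw [← log_two_pow]
    exact Real.log_le_log (by positivity) (by exact_mod_cast hiX)
  have l2 : Real.log X ≤ (i + 1) * Real.log 2 := by
    have : Real.log X ≤ Real.log ((2 ^ (i + 1) : ℕ) : ℝ) := Real.log_le_log hXpos (by exact_mod_cast hXi.le)
    rw [log_two_pow] at this
    push_cast at this
    exact this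
  have l0 : 0 < Real.log X := by nlinarith
  constructor
  · have h3 := hN₁ i hiN₁
    simp only [not_not] at h3
    refine h3.mono hiX ?_
    rw [log_two_pow]
    have e : Real.log X ≤ (11 / 10) * ((i : ℝ) * Real.log 2) := by nlinarith
    have e2 : Real.log X ^ 2 ≤ ((11 / 10) * ((i : ℝ) * Real.log 2)) ^ 2 := pow_le_pow_left₀ l0.le e 2
    nlinarith [sq_nonneg ((i : ℝ) * Real.log 2)]
  · intro h4
    have h5 := hN₂ (i + 1) (by omega)
    apply h5
    refine h4.mono hXi.le ?_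
    rw [log_two_pow]
    push_cast
    have e : ((i : ℝ) + 1) * Real.log 2 ≤ 2 * Real.log X := by nlinarith
    have e2 : (((i : ℝ) + 1) * Real.log 2) ^ 2 ≤ (2 * Real.log X) ^ 2 := pow_le_pow_left₀ (by positivity) e 2
    nlinarith

end Pool.Agent.Q51.LI
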