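import Mathlib

/-!
# Truncated inclusion and exclusion
-/

namespace Pool.Agent.Q51.LI

open Finset

/-- the elementary symmetric function of degree `j` of the numbers `x i`, `i ∈ S` -/
noncomputable def el (x : ℕ → ℝ) (S : Finset ℕ) (j : ℕ) : ℝ := ∑ T ∈ powersetCard j S, ∏ i ∈ T, x i

/-- the alternating sum of the first `K + 1` elementary symmetric functions -/
noncomputable def B (x : ℕ → ℝ) (S : Finset ℕ) (K : ℕ) : ℝ := ∑ j ∈ range (K + 1), (-1) ^ j * el x S j

lemma el_zero (x : ℕ → ℝ) (S : Finset ℕ) : el x S 0 = 1 := by simp [el]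

lemma el_insert (x : ℕ → ℝ) {S : Finset ℕ} {i : ℕ} (hi : i ∉ S) (j : ℕ) :
    el x (insert i S) (j + 1) = el x S (j + 1) + x i * el x S j := by
  unfold el
  rw [powersetCard_succ_insert hi, sum_union, sum_image]
  · congr 1
    rw [mul_sum]
    refine sum_congr rfl fun T hT => ?_
    rw [prod_insert]
    intro h
    exact hi ((mem_powersetCard.1 hT).1 h)
  · intro T hT T' hT' h
    have h1 : i ∉ T := fun h => hi ((mem_powersetCard.1 hT).1 h)
    have h2 : i ∉ T' := fun h => hi ((mem_powersetCard.1 hT').1 h)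
    have := congrArg (fun A => A.erase i) h
    simpa [erase_insert h1, erase_insert h2] using this
  · rw [disjoint_left]
    intro T hT hT'
    rw [mem_image] at hT'
    obtain ⟨T', -, rfl⟩ := hT'
    exact hi ((mem_powersetCard.1 hT).1 (mem_insert_self _ _))

lemma B_succ (x : ℕ → ℝ) (S : Finset ℕ) (K : ℕ) : B x S (K + 1) = B x S K + (-1) ^ (K + 1) * el x S (K + 1) := by
  unfold B
  rw [sum_range_succ]

lemma B_zero (x : ℕ → ℝ) (S : Finset ℕ) : B x S 0 = 1 := by simp [B, el_zero]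

lemma B_insert (x : ℕ → ℝ) {S : Finset ℕ} {i : ℕ} (hi : i ∉ S) (K : ℕ) :
    B x (insert i S) (K + 1) = B x S (K + 1) - x i * B x S K := by
  induction K with
  | zero =>
      rw [B_succ, B_zero, B_succ, B_zero, el_insert x hi, el_zero]
      ring
  | succ K ih =>
      rw [B_succ, ih, B_succ x S (K + 1), el_insert x hi, B_succ x S K]
      ring

lemma B_empty (x : ℕ → ℝ) (K : ℕ) : B x ∅ K = 1 := by
  induction K with
  | zero => exact B_zero x _
  | succ K ih =>
      rw [B_succ, ih]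
      have : el x ∅ (K + 1) = 0 := by
        unfold el
        rw [powersetCard_eq_empty.2 (by simp)]
        simp
      rw [this]; ring

/-- The partial sums of inclusion and exclusion are alternately upper and lower bounds. -/
lemma bonferroni (x : ℕ → ℝ) (S : Finset ℕ) (hx : ∀ i ∈ S, 0 ≤ x i ∧ x i ≤ 1) (K : ℕ) :
    0 ≤ (-1) ^ K * (B x S K - ∏ i ∈ S, (1 - x i)) := by
  induction S using Finset.induction_on generalizing K with
  | empty => rw [B_empty]; simp
  | insert i S hi ih =>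
      have hS : ∀ i ∈ S, 0 ≤ x i ∧ x i ≤ 1 := fun j hj => hx j (mem_insert_of_mem hj)
      have hxi := hx i (mem_insert_self _ _)
      rw [prod_insert hi]
      cases K with
      | zero =>
          rw [B_zero]
          have h1 : ∏ i ∈ S, (1 - x i) ≤ 1 := prod_le_one (fun j hj => by linarith [(hS j hj).2])
            (fun j hj => by linarith [(hS j hj).1])
          have h0 : 0 ≤ ∏ i ∈ S, (1 - x i) := prod_nonneg (fun j hj => by linarith [(hS j hj).2])
          have : (1 - x i) * ∏ i ∈ S, (1 - x i) ≤ 1 := by nlinarith [hxi.1, hxi.2]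
          simpa using this
      | succ K =>
          rw [B_insert x hi]
          have h1 := ih hS (K + 1)
          have h2 := ih hS K
          have h3 := mul_nonneg hxi.1 h2
          have e : (-1 : ℝ) ^ (K + 1) * (B x S (K + 1) - x i * B x S K - (1 - x i) * ∏ i ∈ S, (1 - x i)) =
              (-1) ^ (K + 1) * (B x S (K + 1) - ∏ i ∈ S, (1 - x i)) +
                x i * ((-1) ^ K * (B x S K - ∏ i ∈ S, (1 - x i))) := by
            rw [pow_succ]; ring
          rw [e]
          exact add_nonneg h1 h3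

lemma el_nonneg (x : ℕ → ℝ) (S : Finset ℕ) (hx : ∀ i ∈ S, 0 ≤ x i) (j : ℕ) : 0 ≤ el x S j :=
  sum_nonneg fun T hT => prod_nonneg fun i hi => hx i ((mem_powersetCard.1 hT).1 hi)

lemma el_le (x : ℕ → ℝ) (S : Finset ℕ) (hx : ∀ i ∈ S, 0 ≤ x i) (j : ℕ) (t : ℝ) (ht : 0 < t) :
    el x S j ≤ Real.exp (t * ∑ i ∈ S, x i) / t ^ j := by
  rw [le_div_iff₀ (by positivity)]
  have h1 : el x S j * t ^ j = ∑ T ∈ powersetCard j S, ∏ i ∈ T, (t * x i) := by
    unfold el
    rw [sum_mul]
    refine sum_congr rfl fun T hT => ?_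
    rw [prod_mul_distrib, prod_const, (mem_powersetCard.1 hT).2]
    ring
  have h2 : ∑ T ∈ powersetCard j S, ∏ i ∈ T, (t * x i) ≤ ∑ T ∈ S.powerset, ∏ i ∈ T, (t * x i) := by
    refine sum_le_sum_of_subset_of_nonneg (fun T hT => mem_powerset.2 (mem_powersetCard.1 hT).1) ?_
    intro T hT _
    exact prod_nonneg fun i hi => mul_nonneg ht.le (hx i (mem_powerset.1 hT hi))
  have h3 : ∑ T ∈ S.powerset, ∏ i ∈ T, (t * x i) = ∏ i ∈ S, (1 + t * x i) := by
    rw [Finset.prod_one_add]
  have h4 : ∏ i ∈ S, (1 + t * x i) ≤ Real.exp (t * ∑ i ∈ S, x i) := by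
    rw [mul_sum, Real.exp_sum]
    refine prod_le_prod (fun i hi => by nlinarith [mul_nonneg ht.le (hx i hi)]) fun i hi => ?_
    linarith [Real.add_one_le_exp (t * x i)]
  rw [h1]
  exact h2.trans (h3.le.trans h4)

/-- Two consecutive partial sums: the distance to the product. -/
lemma B_near (x : ℕ → ℝ) (S : Finset ℕ) (hx : ∀ i ∈ S, 0 ≤ x i ∧ x i ≤ 1) (K : ℕ) :
    |B x S K - ∏ i ∈ S, (1 - x i)| ≤ el x S (K + 1) := by
  have h1 := bonferroni x S hx K
  have h2 := bonferroni x S hx (K + 1)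
  rw [B_succ, pow_succ] at h2
  have h3 : ((-1 : ℝ) ^ K) * (-1) ^ K = 1 := by rw [← pow_add, ← two_mul, pow_mul]; simp
  have h4 : (-1 : ℝ) ^ K * -1 * (B x S K + (-1) ^ K * -1 * el x S (K + 1) - ∏ i ∈ S, (1 - x i)) =
      -((-1) ^ K * (B x S K - ∏ i ∈ S, (1 - x i))) + ((-1) ^ K * (-1) ^ K) * el x S (K + 1) := by ring
  rw [h4, h3, one_mul] at h2
  have h5 : |B x S K - ∏ i ∈ S, (1 - x i)| = |(-1 : ℝ) ^ K * (B x S K - ∏ i ∈ S, (1 - x i))| := by
    rw [abs_mul, abs_pow, abs_neg, abs_one, one_pow, one_mul]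
  rw [h5, abs_of_nonneg h1]
  linarith

end Pool.Agent.Q51.LI
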