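import Mathlib

/-!
# The values of a random polynomial at few points
-/

namespace Pool.Agent.Q51.LI

open Finset

/-- the value at `x` of the polynomial with the coefficients `c` -/
def val {F : Type} [Field F] {k : ℕ} (c : Fin k → F) (x : F) : F := ∑ i : Fin k, c i * x ^ (i : ℕ)

theorem exists_values {F : Type} [Field F] {k : ℕ} (hk : 1 ≤ k) (s : Finset ℕ) (hs : s.card ≤ k)
    (v : ℕ → F) (hv : Set.InjOn v s) (r : ℕ → F) : ∃ c : Fin k → F, ∀ n ∈ s, val c (v n) = r n := by
  set p := Lagrange.interpolate s v r with hp
  have hd : p.natDegree < k := by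
    by_cases h0 : p = 0
    · rw [h0, Polynomial.natDegree_zero]; omega
    · rw [Polynomial.natDegree_lt_iff_degree_lt h0]
      exact lt_of_lt_of_le (Lagrange.degree_interpolate_lt r hv) (by exact_mod_cast hs)
  refine ⟨fun i => p.coeff i, fun n hn => ?_⟩
  unfold val
  rw [Fin.sum_univ_eq_sum_range (fun i => p.coeff i * v n ^ i) k, ← Polynomial.eval_eq_sum_range' hd]
  exact Lagrange.eval_interpolate_at_node r hv hn

theorem count_values {F : Type} [Field F] [Fintype F] [DecidableEq F] {k : ℕ} (hk : 1 ≤ k) (s : Finset ℕ)
    (hs : s.card ≤ k) (v : ℕ → F) (hv : Set.InjOn v s) (L : ℕ → Finset F) :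
    (univ.filter fun c : Fin k → F => ∀ n ∈ s, val c (v n) ∈ L n).card * (Fintype.card F) ^ s.card =
      (Fintype.card F) ^ k * ∏ n ∈ s, (L n).card := by
  classical
  let φ : (Fin k → F) →+ (s → F) :=
    { toFun := fun c n => val c (v n)
      map_zero' := by
        funext n
        simp [val]
      map_add' := by
        intro c d
        funext n
        simp [val, add_mul, sum_add_distrib] }
  have hsurj : Function.Surjective φ := by
    intro w
    obtain ⟨c, hc⟩ := exists_values hk s hs v hv (fun n => if h : n ∈ s then w ⟨n, h⟩ else 0)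
    refine ⟨c, ?_⟩
    funext n
    have := hc n n.2
    rw [dif_pos n.2] at this
    exact this
  set c0 := (univ.filter fun c => φ c = 0).card with hc0
  have hfib : ∀ w : s → F, (univ.filter fun c => φ c = w).card = c0 := fun w =>
    AddMonoidHom.card_fiber_eq_of_mem_range φ (hsurj w) (hsurj 0)
  have htot : (Fintype.card F) ^ k = (Fintype.card F) ^ s.card * c0 := by
    have h1 : (univ : Finset (Fin k → F)).card = ∑ w ∈ (univ : Finset (s → F)), (univ.filter fun c => φ c = w).card :=
      card_eq_sum_card_fiberwise fun x _ => mem_univ _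
    simp_rw [hfib] at h1
    rw [sum_const, smul_eq_mul, card_univ, card_univ, Fintype.card_fun, Fintype.card_fun, Fintype.card_fin,
      Fintype.card_coe] at h1
    exact h1
  have hW : (univ.filter fun c : Fin k → F => ∀ n ∈ s, val c (v n) ∈ L n).card =
      (Fintype.piFinset fun n : s => L n).card * c0 := by
    have h1 : (univ.filter fun c : Fin k → F => ∀ n ∈ s, val c (v n) ∈ L n).card =
        ∑ w ∈ (Fintype.piFinset fun n : s => L n), ((univ.filter fun c : Fin k → F => ∀ n ∈ s, val c (v n) ∈ L n).filter
          fun c => φ c = w).card := by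
      refine card_eq_sum_card_fiberwise fun c hc => ?_
      have hc' := (mem_filter.1 hc).2
      rw [mem_coe, Fintype.mem_piFinset]
      exact fun n => hc' n n.2
    rw [h1, ← smul_eq_mul, ← sum_const]
    refine sum_congr rfl fun w hw => ?_
    rw [← hfib w]
    congr 1
    ext c
    simp only [mem_filter, mem_univ, true_and]
    constructor
    · exact fun h => h.2
    · intro h
      refine ⟨fun n hn => ?_, h⟩
      rw [Fintype.mem_piFinset] at hw
      have := hw ⟨n, hn⟩
      rw [← h] at this
      exact this
  rw [hW, htot, Fintype.card_piFinset, prod_coe_sort s (fun n => (L n).card)]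
  ring

end Pool.Agent.Q51.LI
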