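import Pool.Agent.Q51.LI.Void
import Pool.Agent.Q51.LI.Count

/-!
# Random sets with independence of order `k`: random polynomials on blocks
-/

namespace Pool.Agent.Q51.LI

open Finset MeasureTheory

/-- polynomials of degree less than `k` over the field with `q` elements -/
def Co (k q : ℕ) : Type := Fin k → ZMod q

instance (k q : ℕ) : MeasurableSpace (Co k q) := ⊤
instance (k q : ℕ) : MeasurableSingletonClass (Co k q) := ⟨fun _ => trivial⟩
instance (k q : ℕ) [NeZero q] : Fintype (Co k q) := inferInstanceAs (Fintype (Fin k → ZMod q))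
instance (k q : ℕ) : DecidableEq (Co k q) := inferInstanceAs (DecidableEq (Fin k → ZMod q))
instance (k q : ℕ) [NeZero q] : Nonempty (Co k q) := inferInstanceAs (Nonempty (Fin k → ZMod q))

lemma card_Co (k q : ℕ) [NeZero q] : Fintype.card (Co k q) = q ^ k := by
  have : Fintype.card (Co k q) = Fintype.card (Fin k → ZMod q) := rfl
  rw [this, Fintype.card_fun, Fintype.card_fin, ZMod.card]

/-- the uniform distribution -/
noncomputable def unif (k q : ℕ) [NeZero q] : Measure (Co k q) := (PMF.uniformOfFintype (Co k q)).toMeasure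

instance (k q : ℕ) [NeZero q] : IsProbabilityMeasure (unif k q) := PMF.toMeasure.isProbabilityMeasure _

lemma unif_apply (k q : ℕ) [NeZero q] (A : Finset (Co k q)) :
    unif k q (A : Set (Co k q)) = ENNReal.ofReal ((A.card : ℝ) / (q : ℝ) ^ k) := by
  classical
  unfold unif
  rw [PMF.toMeasure_uniformOfFintype_apply _ (show MeasurableSet (A : Set (Co k q)) from trivial)]
  have hq : (0 : ℝ) < (q : ℝ) ^ k := by
    have := NeZero.pos q
    positivity
  rw [ENNReal.ofReal_div_of_pos hq, card_Co, ENNReal.ofReal_natCast]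
  congr 1
  · simp
  · rw [← Nat.cast_pow, ENNReal.ofReal_natCast]

/-- the distribution of a truth value which is true with probability `r` -/
noncomputable def bern (r : ℝ) : Measure Bool :=
  ENNReal.ofReal (max 0 (min 1 r)) • Measure.dirac true + ENNReal.ofReal (1 - max 0 (min 1 r)) • Measure.dirac false

instance (r : ℝ) : IsProbabilityMeasure (bern r) := by
  constructor
  unfold bern
  have h0 : 0 ≤ max 0 (min 1 r) := le_max_left _ _
  have h1 : max 0 (min 1 r) ≤ 1 := max_le zero_le_one (min_le_left _ _)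
  simp only [Measure.coe_add, Measure.coe_smul, Pi.add_apply, Pi.smul_apply, measure_univ, smul_eq_mul, mul_one]
  rw [← ENNReal.ofReal_add h0 (by linarith)]
  simp

lemma bern_true {r : ℝ} (h0 : 0 ≤ r) (h1 : r ≤ 1) : bern r {true} = ENNReal.ofReal r := by
  unfold bern
  rw [min_eq_right h1, max_eq_right h0]
  simp

/-- the values which are allowed at the place `n` -/
def Lset (n Q : ℕ) [NeZero Q] : Finset (ZMod Q) :=
  if n < 8 then univ else univ.filter fun z : ZMod Q => z.val < (Q + 1) / 2

lemma card_val_lt (Q m : ℕ) [NeZero Q] (hm : m ≤ Q) : (univ.filter fun z : ZMod Q => z.val < m).card = m := by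
  have h : (univ.filter fun z : ZMod Q => z.val < m).image ZMod.val = range m := by
    ext a
    simp only [mem_image, mem_filter, mem_univ, true_and, mem_range]
    constructor
    · rintro ⟨z, hz, rfl⟩
      exact hz
    · intro ha
      exact ⟨(a : ZMod Q), by rw [ZMod.val_cast_of_lt (lt_of_lt_of_le ha hm)]; exact ⟨ha, rfl⟩⟩
  rw [← card_image_of_injective _ (ZMod.val_injective Q), h, card_range]

lemma card_Lset (n Q : ℕ) [NeZero Q] : (Lset n Q).card = if n < 8 then Q else (Q + 1) / 2 := by
  unfold Lset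
  split_ifs with h
  · rw [card_univ, ZMod.card]
  · refine card_val_lt Q _ ?_
    have := NeZero.pos Q
    omega

/-- the conditional probability of `n` -/
noncomputable def rr (n Q : ℕ) [NeZero Q] : ℝ := pr n * (Q / (Lset n Q).card)

lemma rr_mem {n : ℕ} (hn : 3 ≤ n) (Q : ℕ) [NeZero Q] : 0 ≤ rr n Q ∧ rr n Q ≤ 1 := by
  have hp := pr_mem hn
  have hQ := NeZero.pos Q
  have hQ' : (0 : ℝ) < Q := by exact_mod_cast hQ
  refine ⟨mul_nonneg hp.1.le (by positivity), ?_⟩
  unfold rr
  rw [card_Lset]
  split_ifs with h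
  · rw [div_self hQ'.ne', mul_one]
    exact hp.2.le
  · have h8 : (8 : ℝ) ≤ n := by
      have : 8 ≤ n := by omega
      exact_mod_cast this
    have hl : 2 ≤ Real.log n := by
      have h1 : Real.log 8 ≤ Real.log n := Real.log_le_log (by norm_num) h8
      have h2 : (2 : ℝ) ≤ Real.log 8 := by
        have e : (8 : ℝ) = 2 ^ 3 := by norm_num
        rw [e, Real.log_pow]
        have := Real.log_two_gt_d9
        push_cast
        linarith
      linarith
    have hp2 : pr n ≤ 1 / 2 := by
      unfold pr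
      exact one_div_le_one_div_of_le (by norm_num) hl
    have hc : (Q : ℝ) / (((Q + 1) / 2 : ℕ) : ℝ) ≤ 2 := by
      have h3 : Q ≤ 2 * ((Q + 1) / 2) := by omega
      have h4 : 0 < (Q + 1) / 2 := by omega
      rw [div_le_iff₀ (by exact_mod_cast h4)]
      exact_mod_cast h3
    have h0 : (0 : ℝ) ≤ (Q : ℝ) / (((Q + 1) / 2 : ℕ) : ℝ) := by positivity
    nlinarith [hp.1]

lemma rr_mul (n Q : ℕ) [NeZero Q] : ((Lset n Q).card : ℝ) / Q * rr n Q = pr n := by
  have hQ := NeZero.pos Q
  have hQ' : (Q : ℝ) ≠ 0 := by exact_mod_cast hQ.ne'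
  have hc : ((Lset n Q).card : ℝ) ≠ 0 := by
    rw [card_Lset]
    split_ifs
    · exact hQ'
    · have : (Q + 1) / 2 ≠ 0 := by omega
      exact_mod_cast this
  unfold rr
  field_simp

section

variable (k : ℕ) (q : ℕ → ℕ) [∀ j, Fact (q j).Prime] (blk pos : ℕ → ℕ)

/-- polynomials for all blocks and truth values for all integers -/
abbrev Om : Type := (∀ j : ℕ, Co k (q j)) × (ℕ → Bool)

/-- the probability measure: everything is independent, the polynomials are uniformly distributed -/
noncomputable def Pm : Measure (Om k q) :=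
  (Measure.infinitePi fun j => unif k (q j)).prod (Measure.infinitePi fun n => bern (rr n (q (blk n))))

instance : IsProbabilityMeasure (Pm k q blk) := by unfold Pm; infer_instance

/-- the event `n ∈ A` -/
def Ev (n : ℕ) : Set (Om k q) :=
  {ω | val (show Fin k → ZMod (q (blk n)) from ω.1 (blk n)) (pos n : ZMod (q (blk n))) ∈ Lset n (q (blk n)) ∧ ω.2 n = true}

lemma measurable_Ev (n : ℕ) : MeasurableSet (Ev k q blk pos n) := by
  have h1 : MeasurableSet ((fun ω : Om k q => ω.1 (blk n)) ⁻¹'
      {c : Co k (q (blk n)) | val (show Fin k → ZMod (q (blk n)) from c) (pos n : ZMod (q (blk n))) ∈ Lset n (q (blk n))}) :=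
    ((measurable_pi_apply _).comp measurable_fst) trivial
  have h2 : MeasurableSet ((fun ω : Om k q => ω.2 n) ⁻¹' {true}) :=
    ((measurable_pi_apply _).comp measurable_snd) trivial
  exact h1.inter h2

variable {k q blk pos}

/-- **Any at most `k` of the events are independent.** -/
theorem model_indep (hk : 1 ≤ k)
    (hpos : ∀ n m : ℕ, 3 ≤ n → 3 ≤ m → n ≠ m → blk n = blk m → ((pos n : ZMod (q (blk n))) ≠ (pos m : ZMod (q (blk n)))))
    (S : Finset ℕ) (hS : ∀ n ∈ S, 3 ≤ n) (hc : S.card ≤ k) :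
    Pm k q blk (⋂ n ∈ S, Ev k q blk pos n) = ENNReal.ofReal (∏ n ∈ S, 1 / Real.log n) := by
  classical
  set T : ∀ j, Finset (Co k (q j)) := fun j => univ.filter fun c =>
    ∀ n ∈ S.filter (fun n => blk n = j), val (show Fin k → ZMod (q j) from c) (pos n : ZMod (q j)) ∈ Lset n (q j) with hT
  have hset : (⋂ n ∈ S, Ev k q blk pos n) =
      (Set.pi (S.image blk) fun j => (T j : Set (Co k (q j)))) ×ˢ (Set.pi S fun _ => ({true} : Set Bool)) := by
    ext ω
    simp only [Set.mem_iInter, Ev, Set.mem_setOf_eq, Set.mem_prod, Set.mem_pi, coe_image, Set.mem_image, mem_coe,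
      Set.mem_singleton_iff, hT, mem_filter, mem_univ, true_and, coe_filter]
    constructor
    · intro h
      refine ⟨?_, fun n hn => (h n hn).2⟩
      rintro j - n ⟨hn, rfl⟩
      exact (h n hn).1
    · rintro ⟨h1, h2⟩ n hn
      exact ⟨h1 (blk n) ⟨n, hn, rfl⟩ n ⟨hn, rfl⟩, h2 n hn⟩
  have h1 : ∀ j ∈ S.image blk, unif k (q j) (T j : Set (Co k (q j))) =
      ENNReal.ofReal (∏ n ∈ S.filter (fun n => blk n = j), ((Lset n (q (blk n))).card : ℝ) / (q (blk n))) := by
    intro j _
    rw [unif_apply]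
    congr 1
    have hinj : Set.InjOn (fun n : ℕ => (n : ℕ)) (S.filter (fun n => blk n = j)) := fun a _ b _ h => h
    have hc' : (S.filter (fun n => blk n = j)).card ≤ k := (card_filter_le _ _).trans hc
    have key := count_values (F := ZMod (q j)) hk (S.filter (fun n => blk n = j)) hc' (fun n => (pos n : ZMod (q j))) ?_
      (fun n => Lset n (q j))
    · rw [ZMod.card] at key
      have hq0 : (q j : ℝ) ≠ 0 := by exact_mod_cast (Fact.out : (q j).Prime).ne_zero
      have e1 : ∏ n ∈ S.filter (fun n => blk n = j), ((Lset n (q (blk n))).card : ℝ) / (q (blk n)) =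
          ∏ n ∈ S.filter (fun n => blk n = j), ((Lset n (q j)).card : ℝ) / (q j) := by
        refine prod_congr rfl fun n hn => ?_
        have := (mem_filter.1 hn).2
        subst this
        rfl
      rw [e1, prod_div_distrib, prod_const, div_eq_div_iff (pow_ne_zero _ hq0) (pow_ne_zero _ hq0)]
      have key' : ((T j).card : ℝ) * (q j : ℝ) ^ (S.filter (fun n => blk n = j)).card =
          (q j : ℝ) ^ k * ∏ n ∈ S.filter (fun n => blk n = j), ((Lset n (q j)).card : ℝ) := by
        exact_mod_cast key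
      rw [key']
      ring
    · intro a ha b hb hab
      by_contra hne
      rw [coe_filter, Set.mem_setOf_eq] at ha hb
      have := hpos a b (hS a ha.1) (hS b hb.1) hne (ha.2.trans hb.2.symm)
      apply this
      have e := ha.2
      subst e
      exact hab
  have h2 : ∀ n ∈ S, bern (rr n (q (blk n))) {true} = ENNReal.ofReal (rr n (q (blk n))) := fun n hn =>
    bern_true (rr_mem (hS n hn) _).1 (rr_mem (hS n hn) _).2
  have m1 : ∀ j ∈ S.image blk, MeasurableSet ((T j : Set (Co k (q j)))) := fun j _ => trivial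
  have m2 : ∀ n ∈ S, MeasurableSet ({true} : Set Bool) := fun _ _ => trivial
  rw [hset, Pm, Measure.prod_prod, Measure.infinitePi_pi _ m1, Measure.infinitePi_pi _ m2,
    prod_congr rfl h1, prod_congr rfl h2, ← ENNReal.ofReal_prod_of_nonneg, ← ENNReal.ofReal_prod_of_nonneg,
    prod_fiberwise_of_maps_to (fun n hn => mem_image_of_mem _ hn), ← ENNReal.ofReal_mul, ← prod_mul_distrib]
  · congr 1
    exact prod_congr rfl fun n _ => rr_mul n _
  · exact prod_nonneg fun n _ => by positivity
  · exact fun n hn => (rr_mem (hS n hn) _).1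
  · exact fun j _ => prod_nonneg fun n _ => by positivity

/-- the constant polynomials with a value which is not allowed -/
def sil (k Q : ℕ) [NeZero Q] : Finset (Co k Q) :=
  (univ.filter fun z : ZMod Q => ¬ z.val < (Q + 1) / 2).image
    fun z => (show Co k Q from fun i : Fin k => if (i : ℕ) = 0 then z else 0)

lemma card_sil {k : ℕ} (hk : 1 ≤ k) (Q : ℕ) [NeZero Q] : (sil k Q).card = Q / 2 := by
  classical
  unfold sil
  rw [card_image_of_injective]
  · have h1 := card_filter_add_card_filter_not (s := (univ : Finset (ZMod Q))) (fun z => z.val < (Q + 1) / 2)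
    have hQ := NeZero.pos Q
    rw [card_val_lt Q _ (by omega), card_univ, ZMod.card] at h1
    omega
  · intro z z' h
    have := congrFun (show (fun i : Fin k => if (i : ℕ) = 0 then z else 0) = fun i : Fin k => if (i : ℕ) = 0 then z' else 0
      from h) ⟨0, by omega⟩
    simpa using this

lemma val_sil {k : ℕ} (hk : 1 ≤ k) (Q : ℕ) [Fact Q.Prime] {c : Co k Q} (hc : c ∈ sil k Q) (x : ZMod Q) {n : ℕ} (hn : 8 ≤ n) :
    val (show Fin k → ZMod Q from c) x ∉ Lset n Q := by
  classical
  unfold sil at hc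
  rw [mem_image] at hc
  obtain ⟨z, hz, rfl⟩ := hc
  have e : val (show Fin k → ZMod Q from (show Co k Q from fun i : Fin k => if (i : ℕ) = 0 then z else 0)) x = z := by
    show ∑ i : Fin k, (if (i : ℕ) = 0 then z else 0) * x ^ (i : ℕ) = z
    rw [sum_eq_single (⟨0, by omega⟩ : Fin k)]
    · simp
    · intro b _ hb
      have : (b : ℕ) ≠ 0 := fun h => hb (Fin.ext h)
      rw [if_neg this, zero_mul]
    · intro h
      exact absurd (mem_univ _) h
  rw [e]
  unfold Lset
  rw [if_neg (by omega), mem_filter]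
  rw [mem_filter] at hz
  exact fun h => hz.2 h.2

lemma silent_void (hk : 1 ≤ k) {ω : Om k q} {n : ℕ} (hn : 8 ≤ n) (h : ω.1 (blk n) ∈ sil k (q (blk n))) :
    ω ∉ Ev k q blk pos n := fun hE => val_sil hk _ h _ hn hE.1

/-- The probability that no block of `J` is silent. -/
theorem no_silent (hk : 1 ≤ k) (J : Finset ℕ) :
    (Pm k q blk).real {ω | ∀ j ∈ J, ω.1 j ∉ sil k (q j)} ≤
      Real.exp (-∑ j ∈ J, ((q j / 2 : ℕ) : ℝ) / (q j : ℝ) ^ k) := by
  classical
  have hset : {ω : Om k q | ∀ j ∈ J, ω.1 j ∉ sil k (q j)} =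
      (Set.pi J fun j => (((sil k (q j))ᶜ : Finset (Co k (q j))) : Set (Co k (q j)))) ×ˢ (Set.univ : Set (ℕ → Bool)) := by
    ext ω
    simp [Set.mem_pi]
  have m1 : ∀ j ∈ J, MeasurableSet ((((sil k (q j))ᶜ : Finset (Co k (q j))) : Set (Co k (q j)))) := fun j _ => trivial
  have hval : ∀ j ∈ J, unif k (q j) ((((sil k (q j))ᶜ : Finset (Co k (q j))) : Set (Co k (q j)))) =
      ENNReal.ofReal (1 - ((q j / 2 : ℕ) : ℝ) / (q j : ℝ) ^ k) := by
    intro j _
    rw [unif_apply, card_compl, card_Co, card_sil hk]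
    congr 1
    have hq0 : (q j : ℝ) ≠ 0 := by exact_mod_cast (Fact.out : (q j).Prime).ne_zero
    have hle : q j / 2 ≤ q j ^ k := (Nat.div_le_self _ _).trans (Nat.le_self_pow (by omega) _)
    rw [Nat.cast_sub hle, Nat.cast_pow, sub_div, div_self (pow_ne_zero _ hq0)]
  have h01 : ∀ j ∈ J, 0 ≤ 1 - ((q j / 2 : ℕ) : ℝ) / (q j : ℝ) ^ k := by
    intro j _
    have hq0 : (0 : ℝ) < (q j : ℝ) ^ k := by
      have : 0 < q j := (Fact.out : (q j).Prime).pos
      positivity
    rw [sub_nonneg, div_le_one hq0]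
    have hle : q j / 2 ≤ q j ^ k := (Nat.div_le_self _ _).trans (Nat.le_self_pow (by omega) _)
    exact_mod_cast hle
  have hmeas : (Pm k q blk) {ω : Om k q | ∀ j ∈ J, ω.1 j ∉ sil k (q j)} =
      ENNReal.ofReal (∏ j ∈ J, (1 - ((q j / 2 : ℕ) : ℝ) / (q j : ℝ) ^ k)) := by
    rw [hset, Pm, Measure.prod_prod, Measure.infinitePi_pi _ m1, prod_congr rfl hval, measure_univ, mul_one,
      ← ENNReal.ofReal_prod_of_nonneg h01]
  unfold Measure.real
  rw [hmeas, ENNReal.toReal_ofReal (prod_nonneg h01), ← sum_neg_distrib, Real.exp_sum]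
  refine prod_le_prod h01 fun j _ => ?_
  have := Real.add_one_le_exp (-(((q j / 2 : ℕ) : ℝ) / (q j : ℝ) ^ k))
  linarith

end

end Pool.Agent.Q51.LI
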