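import Pool.Agent.Q51.LI.As
import Pool.Agent.Q51.LI.Model

/-!
# Random sets with independence of order `k` and large gaps
-/

namespace Pool.Agent.Q51.LI

open Finset MeasureTheory Filter

section

variable {Ω : Type} [MeasurableSpace Ω] {P : Measure Ω} {k X : ℕ} {E : ℕ → Set Ω}

/-- With pairwise independence an interval of length `N` is avoided with probability at most `(log X) ^ 2 / N`. -/
lemma void_pairwise [IsProbabilityMeasure P] (hk : 2 ≤ k) (hX : 3 ≤ X) (hE : IsRandomSet P k X E) (a N : ℕ) (ha : 3 ≤ a)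
    (hb : a + N ≤ X + 1) (hN : 1 ≤ N) : P.real (void E (Ico a (a + N))) ≤ Real.log X ^ 2 / N := by
  classical
  have hL := one_lt_logX hX
  set V : ℕ → Set Ω := fun j => if a + j ≤ X then E (a + j) else ∅ with hV
  have hVm : ∀ j, MeasurableSet (V j) := by
    intro j
    simp only [hV]
    split_ifs with h
    · exact hE.1 _ (mem_Icc.2 ⟨by omega, h⟩)
    · exact MeasurableSet.empty
  have hVj : ∀ j < N, V j = E (a + j) := fun j hj => if_pos (by omega)
  have hmem : ∀ j < N, a + j ∈ Icc 3 X := fun j hj => mem_Icc.2 ⟨by omega, by omega⟩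
  have h1 : ∀ j < N, P.real (V j) = pr (a + j) := by
    intro j hj
    rw [hVj j hj]
    have := real_inter hE (T := {a + j}) (by simpa using mem_Icc.1 (hmem j hj)) (by simp; omega)
    simpa using this
  have h2 : ∀ i < N, ∀ j < N, i ≠ j → P.real (V i ∩ V j) = pr (a + i) * pr (a + j) := by
    intro i hi j hj hij
    rw [hVj j hj, hVj i hi]
    have hne : a + i ≠ a + j := by omega
    have := real_inter hE (T := {a + i, a + j}) (by
      intro n hn
      rw [mem_insert, mem_singleton] at hn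
      rcases hn with rfl | rfl
      · exact hmem i hi
      · exact hmem j hj) (by rw [card_pair hne]; exact hk)
    rw [prod_pair hne] at this
    rw [← this]
    congr 1
    ext ω
    simp
  have key := second_moment (P := P) N V hVm (fun j => pr (a + j)) (fun j hj => by
    have := pr_mem (mem_Icc.1 (hmem j hj)).1
    exact ⟨this.1.le, this.2.le⟩) 0 (fun j hj => by simp only [h1 j hj, sub_self, abs_zero, le_refl])
    (fun i hi j hj hij => by simp only [h2 i hi j hj hij, sub_self, abs_zero, le_refl])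
  have hset : {ω | ∀ j < N, ω ∉ V j} = void E (Ico a (a + N)) := by
    ext ω
    simp only [void, Set.mem_ofPred_eq, mem_Ico]
    constructor
    · intro h n hn
      have := h (n - a) (by omega)
      rw [hVj _ (by omega)] at this
      rwa [show a + (n - a) = n by omega] at this
    · intro h j hj
      rw [hVj j hj]
      exact h _ ⟨by omega, by omega⟩
  rw [hset] at key
  have hN0 : (0 : ℝ) < N := by exact_mod_cast hN
  have hsum : (N : ℝ) / Real.log X ≤ ∑ j ∈ range N, pr (a + j) := by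
    calc (N : ℝ) / Real.log X = ∑ j ∈ range N, 1 / Real.log X := by
          rw [sum_const, card_range, nsmul_eq_mul, mul_one_div]
      _ ≤ _ := sum_le_sum fun j hj => pr_ge (hmem j (mem_range.1 hj))
  have h3 : P.real (void E (Ico a (a + N))) * ((N : ℝ) / Real.log X) ^ 2 ≤ N := by
    refine le_trans (mul_le_mul_of_nonneg_left (pow_le_pow_left₀ (by positivity) hsum 2) measureReal_nonneg) ?_
    simpa using key
  rw [le_div_iff₀ hN0]
  have h4 : P.real (void E (Ico a (a + N))) * (N : ℝ) * ((N : ℝ) / Real.log X ^ 2) ≤ (N : ℝ) := by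
    have e : P.real (void E (Ico a (a + N))) * (N : ℝ) * ((N : ℝ) / Real.log X ^ 2) =
        P.real (void E (Ico a (a + N))) * ((N : ℝ) / Real.log X) ^ 2 := by rw [div_pow]; ring
    rw [e]
    exact h3
  have h5 : (N : ℝ) = Real.log X ^ 2 * (N / Real.log X ^ 2) := by field_simp
  have h6 : 0 < (N : ℝ) / Real.log X ^ 2 := by positivity
  refine le_of_mul_le_mul_right ?_ h6
  rw [← h5]
  exact h4

end

section

variable {k : ℕ} {q : ℕ → ℕ} [∀ j, Fact (q j).Prime] {blk pos : ℕ → ℕ}

theorem isRandomSet_model (hk : 1 ≤ k)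
    (hpos : ∀ n m : ℕ, 3 ≤ n → 3 ≤ m → n ≠ m → blk n = blk m → ((pos n : ZMod (q (blk n))) ≠ (pos m : ZMod (q (blk n)))))
    (X : ℕ) : IsRandomSet (Pm k q blk) k X (Ev k q blk pos) :=
  ⟨fun n _ => measurable_Ev k q blk pos n, fun S hS hc =>
    model_indep hk hpos S (fun n hn => (mem_Icc.1 (hS hn)).1) hc⟩

/-- A silent block gives a gap. -/
theorem gap_model (hk : 2 ≤ k) {X : ℕ} (hX : 3 ≤ X) (hE : IsRandomSet (Pm k q blk) k X (Ev k q blk pos)) (u v H Q : ℕ)
    (code : ℕ → ℕ) (hcode : Function.Injective code) (hblk : ∀ n, u ≤ n → n < v → blk n = code (n / H))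
    (hq : ∀ l, q (code l) = Q) (hH : 2 ≤ H) (hHQ : H ≤ Q) (hQH : Q ≤ 2 * H) (hu : 8 ≤ u) (hv : v ≤ X / 2)
    (hlen : 1 ≤ (v / H : ℕ) - (u / H : ℕ)) :
    (Pm k q blk).real {ω | ¬ HasGap (Ev k q blk pos) X ((H : ℝ) + 1) ω} ≤
      Real.exp (-(((v / H : ℕ) : ℝ) - ((u / H : ℕ) : ℝ) - 1) / (3 * (2 * (H : ℝ)) ^ (k - 1))) +
        (Real.log X ^ 2 / ((u - 3 : ℕ) : ℝ) + Real.log X ^ 2 / ((X - X / 2 : ℕ) : ℝ)) := by
  classical
  have hk1 : 1 ≤ k := by omega
  have huv : u < v := by
    by_contra hcon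
    have := Nat.div_le_div_right (c := H) (not_lt.1 hcon)
    omega
  set J := (Ico (u / H + 1) (v / H)).image code with hJ
  have hsub : {ω | ¬ HasGap (Ev k q blk pos) X ((H : ℝ) + 1) ω} ⊆
      {ω : Om k q | ∀ j ∈ J, ω.1 j ∉ sil k (q j)} ∪
        (void (Ev k q blk pos) (Ico 3 (3 + (u - 3))) ∪ void (Ev k q blk pos) (Ico (X / 2 + 1) (X / 2 + 1 + (X - X / 2)))) := by
    intro ω hω
    by_contra hcon
    simp only [Set.mem_union, not_or] at hcon
    obtain ⟨c1, c2, c3⟩ := hcon
    simp only [Set.mem_ofPred_eq] at c1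
    push Not at c1
    obtain ⟨j, hj, hsil⟩ := c1
    simp only [void, Set.mem_ofPred_eq] at c2 c3
    push Not at c2 c3
    obtain ⟨n₁, hn₁, hn₁E⟩ := c2
    obtain ⟨n₂, hn₂, hn₂E⟩ := c3
    rw [mem_Ico] at hn₁ hn₂
    rw [hJ, mem_image] at hj
    obtain ⟨l, hl, rfl⟩ := hj
    rw [mem_Ico] at hl
    have a1 : u < l * H := by
      have h1 : (u / H + 1) * H ≤ l * H := Nat.mul_le_mul_right _ hl.1
      have h2 : u < (u / H + 1) * H := by
        have := Nat.lt_div_mul_add (a := u) (b := H) (by omega)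
        have e : (u / H + 1) * H = u / H * H + H := by ring
        omega
      omega
    have a2 : (l + 1) * H ≤ v := (Nat.mul_le_mul_right _ hl.2).trans (Nat.div_mul_le_self v H)
    apply hω
    refine gap_of_blocks (Ev k q blk pos) X (l * H) ((l + 1) * H) ω ⟨n₁, hn₁.1, by omega, hn₁E⟩
      ⟨n₂, by omega, by omega, hn₂E⟩ (Nat.mul_le_mul_right _ (by omega)) ?_ _ ?_
    · intro n h1 h2
      have e1 : n / H = l := by
        rw [Nat.div_eq_iff (by omega)]
        have e : (l + 1) * H = l * H + H := by ring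
        omega
      have e2 : blk n = code l := by rw [hblk n (by omega) (by omega), e1]
      refine silent_void hk1 (by omega) ?_
      rw [e2]
      exact hsil
    · push_cast
      linarith
  refine (measureReal_mono hsub (measure_ne_top _ _)).trans ?_
  refine (measureReal_union_le _ _).trans (add_le_add ?_ ((measureReal_union_le _ _).trans (add_le_add ?_ ?_)))
  · refine (no_silent hk1 J).trans (Real.exp_le_exp.2 ?_)
    rw [neg_div, neg_le_neg_iff, hJ, sum_image (fun a _ b _ h => hcode h)]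
    have hQ2 : 2 ≤ Q := by omega
    have hQ0 : (0 : ℝ) < Q := by
      have : 0 < Q := by omega
      exact_mod_cast this
    have hH0 : (0 : ℝ) < H := by
      have : 0 < H := by omega
      exact_mod_cast this
    have hone : ∀ l ∈ Ico (u / H + 1) (v / H), 1 / (3 * (2 * (H : ℝ)) ^ (k - 1)) ≤
        ((q (code l) / 2 : ℕ) : ℝ) / (q (code l) : ℝ) ^ k := by
      intro l _
      rw [hq l]
      have e1 : (Q : ℝ) ^ k = Q ^ (k - 1) * Q := by
        rw [← pow_succ]
        congr 1
        omega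
      have e2 : (Q : ℝ) ≤ 3 * ((Q / 2 : ℕ) : ℝ) := by
        have : Q ≤ 3 * (Q / 2) := by omega
        exact_mod_cast this
      have e3 : (Q : ℝ) ^ (k - 1) ≤ (2 * (H : ℝ)) ^ (k - 1) := pow_le_pow_left₀ hQ0.le (by exact_mod_cast hQH) _
      rw [e1, div_le_div_iff₀ (by positivity) (by positivity)]
      calc 1 * ((Q : ℝ) ^ (k - 1) * Q) ≤ (2 * (H : ℝ)) ^ (k - 1) * (3 * ((Q / 2 : ℕ) : ℝ)) := by
            rw [one_mul]
            exact mul_le_mul e3 e2 hQ0.le (by positivity)
        _ = _ := by ring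
    have h := sum_le_sum hone
    rw [sum_const, Nat.card_Ico, nsmul_eq_mul] at h
    refine le_trans (le_of_eq ?_) h
    have e4 : ((v / H - (u / H + 1) : ℕ) : ℝ) = ((v / H : ℕ) : ℝ) - ((u / H : ℕ) : ℝ) - 1 := by
      rw [Nat.cast_sub (by omega)]
      push_cast
      ring
    rw [e4]
    ring
  · exact void_pairwise hk hX hE 3 (u - 3) le_rfl (by have := Nat.div_le_self X 2; omega) (by omega)
  · exact void_pairwise hk hX hE (X / 2 + 1) (X - X / 2) (by omega) (by omega) (by omega)

end

end Pool.Agent.Q51.LI
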