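import Pool.Agent.Q51.LI.Counter

/-!
# Random sets with independence of order `k` whose largest gap has the order `X ^ (1 / k)` at least
-/

namespace Pool.Agent.Q51.LI

open Finset MeasureTheory Filter

lemma numeric {L : ℝ} (hL : 1000 ≤ L) : 8 * L ^ 2 ≤ Real.exp (L / 6) := by
  have h1 := Real.pow_div_factorial_le_exp (L / 6) (by linarith) 4
  refine le_trans ?_ h1
  have : (Nat.factorial 4 : ℝ) = 24 := by norm_num [Nat.factorial]
  rw [this]
  have h2 : (L / 6) ^ 4 / 24 = L ^ 2 * (L ^ 2 / 31104) := by ring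
  rw [h2]
  have h3 : 8 ≤ L ^ 2 / 31104 := by nlinarith
  nlinarith [sq_nonneg L]

theorem model_gap (k : ℕ) (hk : 2 ≤ k) (τ Hf : ℕ → ℕ) (hHf : ∀ t, 1 ≤ Hf t) :
    ∃ (Ω : Type) (_ : MeasurableSpace Ω) (P : Measure Ω) (E : ℕ → Set Ω), IsProbabilityMeasure P ∧
      (∀ X, IsRandomSet P k X E) ∧ ∀ t X u v : ℕ, 1000 ≤ Real.log X → 48 * Real.log X ≤ (X : ℝ) ^ (1 / (k : ℝ)) →
        Hf t = ⌊(X : ℝ) ^ (1 / (k : ℝ)) / (24 * Real.log X)⌋₊ → (∀ n, u ≤ n → n < v → τ n = t) → v ≤ X / 2 →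
        Real.exp (Real.log X / 2) ≤ u → (X : ℝ) / 5 ≤ (v : ℝ) - u →
        P.real {ω | ¬ HasGap E X ((X : ℝ) ^ (1 / (k : ℝ)) / (24 * Real.log X)) ω} ≤ Real.exp (-(Real.log X / 3)) := by
  classical
  choose Qf hQp hQ1 hQ2 using fun t => Nat.exists_prime_lt_and_le_two_mul (Hf t) (by have := hHf t; omega)
  set q : ℕ → ℕ := fun j => Qf (Nat.unpair j).1 with hq
  have : ∀ j, Fact (q j).Prime := fun j => ⟨hQp _⟩
  set blk : ℕ → ℕ := fun n => Nat.pair (τ n) (n / Hf (τ n)) with hblk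
  set pos : ℕ → ℕ := fun n => n % Hf (τ n) with hposd
  have hqb : ∀ n, q (blk n) = Qf (τ n) := fun n => by simp only [hq, hblk, Nat.unpair_pair]
  have hpos : ∀ n m : ℕ, 3 ≤ n → 3 ≤ m → n ≠ m → blk n = blk m →
      ((pos n : ZMod (q (blk n))) ≠ (pos m : ZMod (q (blk n)))) := by
    intro n m _ _ hne hb heq
    obtain ⟨ht, hd⟩ := Nat.pair_eq_pair.1 hb
    rw [ZMod.natCast_eq_natCast_iff', hqb] at heq
    simp only [hposd] at heq
    rw [← ht] at hd heq
    have l1 : n % Hf (τ n) < Hf (τ n) := Nat.mod_lt _ (hHf _)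
    have l2 : m % Hf (τ n) < Hf (τ n) := Nat.mod_lt _ (hHf _)
    rw [Nat.mod_eq_of_lt (l1.trans (hQ1 _)), Nat.mod_eq_of_lt (l2.trans (hQ1 _))] at heq
    apply hne
    rw [← Nat.div_add_mod n (Hf (τ n)), ← Nat.div_add_mod m (Hf (τ n)), hd, heq]
  have hk1 : 1 ≤ k := by omega
  have hRS : ∀ X, IsRandomSet (Pm k q blk) k X (Ev k q blk pos) := fun X => isRandomSet_model hk1 hpos X
  refine ⟨Om k q, inferInstance, Pm k q blk, Ev k q blk pos, inferInstance, hRS, ?_⟩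
  intro t X u v hL hw hHt hτ hv hu huv
  set L := Real.log X with hLdef
  set w := (X : ℝ) ^ (1 / (k : ℝ)) with hwdef
  have hX0' : X ≠ 0 := by
    rintro rfl
    simp at hLdef
    linarith
  have hX0 : (0 : ℝ) < X := by exact_mod_cast Nat.pos_of_ne_zero hX0'
  have hXe : Real.exp L = X := Real.exp_log hX0
  have hsq : Real.exp (L / 2) ^ 2 = X := by
    rw [← Real.exp_nat_mul, ← hXe]
    congr 1
    push_cast
    ring
  have hR : 1000 ≤ Real.exp (L / 2) := by
    have h1 := numeric hL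
    have h2 : Real.exp (L / 6) ≤ Real.exp (L / 2) := Real.exp_le_exp.2 (by linarith)
    nlinarith
  have hX3 : 3 ≤ X := by
    have : (3 : ℝ) ≤ X := by rw [← hsq]; nlinarith
    exact_mod_cast this
  set H := Hf t with hHdef
  have hwk : w ^ k = X := by
    rw [hwdef, one_div]
    exact Real.rpow_inv_natCast_pow hX0.le (by omega)
  have hw2 : w ≤ Real.exp (L / 2) := by
    rw [hwdef, Real.rpow_def_of_pos hX0]
    apply Real.exp_le_exp.2
    have h2 : (1 : ℝ) / k ≤ 1 / 2 := one_div_le_one_div_of_le (by norm_num) (by exact_mod_cast hk)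
    nlinarith
  have hH1 : (H : ℝ) ≤ w / (24 * L) := by
    rw [hHt]
    exact Nat.floor_le (by positivity)
  have hH2 : w / (24 * L) < H + 1 := by
    rw [hHt]
    exact Nat.lt_floor_add_one _
  have hwL : 2 ≤ w / (24 * L) := by
    rw [le_div_iff₀ (by linarith)]
    linarith
  have hH2' : 2 ≤ H := by
    rw [hHt]
    exact Nat.le_floor (by exact_mod_cast hwL)
  have hH0 : (0 : ℝ) < H := by
    have : 0 < H := by omega
    exact_mod_cast this
  have h2H : 2 * (H : ℝ) ≤ w / (12 * L) := by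
    have e : w / (12 * L) = 2 * (w / (24 * L)) := by field_simp; ring
    rw [e]
    linarith
  have h2Hs : 2 * (H : ℝ) ≤ X / 40 := by
    have h1 : w / (12 * L) ≤ w := by
      rw [div_le_iff₀ (by linarith)]
      have : 0 ≤ w := by positivity
      nlinarith
    have h2 : w ≤ X / 40 := by
      refine hw2.trans ?_
      rw [← hsq]
      nlinarith
    linarith
  have e5 : ((v / H : ℕ) : ℝ) ≥ (v : ℝ) / H - 1 := by
    have h1 : v < (v / H + 1) * H := by
      have := Nat.lt_div_mul_add (a := v) (b := H) (by omega)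
      have e : (v / H + 1) * H = v / H * H + H := by ring
      omega
    have h2 : (v : ℝ) < (((v / H : ℕ) : ℝ) + 1) * H := by exact_mod_cast h1
    have h3 : (v : ℝ) / H < ((v / H : ℕ) : ℝ) + 1 := by rwa [div_lt_iff₀ hH0]
    linarith
  have e6 : ((u / H : ℕ) : ℝ) ≤ (u : ℝ) / H := Nat.cast_div_le
  have e7 : (X : ℝ) / (8 * H) ≤ ((v / H : ℕ) : ℝ) - ((u / H : ℕ) : ℝ) - 1 := by
    have h1 : (X : ℝ) / (8 * H) ≤ ((v : ℝ) - u) / H - 2 := by
      have h2 : ((v : ℝ) - u) / H - 2 = (((v : ℝ) - u) - 2 * H) / H := by field_simp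
      rw [h2, div_le_div_iff₀ (by positivity) hH0]
      nlinarith
    have h3 : ((v : ℝ) - u) / H = (v : ℝ) / H - u / H := sub_div _ _ _
    linarith
  have e8 : 1 ≤ (v / H : ℕ) - (u / H : ℕ) := by
    have h1 : (0 : ℝ) < (X : ℝ) / (8 * H) := by positivity
    have h2 : ((u / H : ℕ) : ℝ) + 1 < ((v / H : ℕ) : ℝ) := by linarith
    have h3 : (u / H : ℕ) + 1 < v / H := by exact_mod_cast h2
    omega
  have hu8 : 8 ≤ u := by
    have : (8 : ℝ) ≤ u := by linarith
    exact_mod_cast this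
  have key := gap_model hk hX3 (hRS X) u v H (Qf t) (fun l => Nat.pair t l) (fun a b h => (Nat.pair_eq_pair.1 h).2)
    (fun n h1 h2 => by simp only [hblk, hτ n h1 h2, ← hHdef]) (fun l => by simp only [hq, Nat.unpair_pair]) hH2'
    (hQ1 t).le (hQ2 t) hu8 hv e8
  have hmono : (Pm k q blk).real {ω | ¬ HasGap (Ev k q blk pos) X (w / (24 * L)) ω} ≤
      (Pm k q blk).real {ω | ¬ HasGap (Ev k q blk pos) X ((H : ℝ) + 1) ω} := by
    refine measureReal_mono ?_ (measure_ne_top _ _)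
    intro ω hω hg
    exact hω (hg.mono le_rfl hH2.le)
  refine hmono.trans (key.trans ?_)
  -- the three terms
  have hpow : (2 * (H : ℝ)) ^ k ≤ X / (12 * L) := by
    calc (2 * (H : ℝ)) ^ k ≤ (w / (12 * L)) ^ k := pow_le_pow_left₀ (by positivity) h2H _
      _ = X / (12 * L) ^ k := by rw [div_pow, hwk]
      _ ≤ X / (12 * L) := by
          refine div_le_div_of_nonneg_left hX0.le (by linarith) ?_
          exact le_self_pow₀ (by linarith) (by omega)
  have t1 : Real.exp (-(((v / H : ℕ) : ℝ) - ((u / H : ℕ) : ℝ) - 1) / (3 * (2 * (H : ℝ)) ^ (k - 1))) ≤ Real.exp (-L) := by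
    apply Real.exp_le_exp.2
    rw [neg_div, neg_le_neg_iff, le_div_iff₀ (by positivity)]
    refine le_trans ?_ e7
    rw [le_div_iff₀ (by positivity)]
    have e9 : (2 * (H : ℝ)) ^ k = (2 * (H : ℝ)) ^ (k - 1) * (2 * H) := by
      rw [← pow_succ]
      congr 1
      omega
    have e10 : L * (3 * (2 * (H : ℝ)) ^ (k - 1)) * (8 * H) = 12 * L * (2 * (H : ℝ)) ^ k := by rw [e9]; ring
    rw [e10]
    rw [le_div_iff₀ (by linarith)] at hpow
    linarith
  have hu3 : Real.exp (L / 2) / 2 ≤ ((u - 3 : ℕ) : ℝ) := by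
    rw [Nat.cast_sub (by omega)]
    push_cast
    linarith
  have hX2 : Real.exp (L / 2) / 2 ≤ ((X - X / 2 : ℕ) : ℝ) := by
    have h1 : X / 2 ≤ X := Nat.div_le_self _ _
    rw [Nat.cast_sub h1]
    have h2 : ((X / 2 : ℕ) : ℝ) ≤ X / 2 := Nat.cast_div_le
    have h3 : Real.exp (L / 2) ≤ X := by rw [← hsq]; nlinarith
    linarith
  have hE0 : (0 : ℝ) < Real.exp (L / 2) / 2 := by positivity
  have t2 : L ^ 2 / ((u - 3 : ℕ) : ℝ) ≤ L ^ 2 / (Real.exp (L / 2) / 2) :=
    div_le_div_of_nonneg_left (by positivity) hE0 hu3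
  have t3 : L ^ 2 / ((X - X / 2 : ℕ) : ℝ) ≤ L ^ 2 / (Real.exp (L / 2) / 2) :=
    div_le_div_of_nonneg_left (by positivity) hE0 hX2
  have t4 : L ^ 2 / (Real.exp (L / 2) / 2) ≤ Real.exp (-(L / 3)) / 4 := by
    have h1 := numeric hL
    have e11 : Real.exp (L / 2) = Real.exp (L / 6) * Real.exp (L / 3) := by rw [← Real.exp_add]; congr 1; ring
    have e12 : Real.exp (-(L / 3)) * Real.exp (L / 3) = 1 := by rw [← Real.exp_add]; simp
    rw [div_le_iff₀ hE0, e11]
    have e13 : Real.exp (-(L / 3)) / 4 * (Real.exp (L / 6) * Real.exp (L / 3) / 2) =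
        Real.exp (L / 6) / 8 * (Real.exp (-(L / 3)) * Real.exp (L / 3)) := by ring
    rw [e13, e12]
    linarith
  have t5 : Real.exp (-L) ≤ Real.exp (-(L / 3)) / 2 := by
    have e14 : Real.exp (-L) = Real.exp (-(L / 3)) * Real.exp (-(2 * L / 3)) := by rw [← Real.exp_add]; congr 1; ring
    have h2 : Real.exp (-(2 * L / 3)) ≤ 1 / 2 := by
      rw [Real.exp_neg, ← one_div]
      apply one_div_le_one_div_of_le (by norm_num)
      have := Real.add_one_le_exp (2 * L / 3)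
      linarith
    rw [e14]
    have := Real.exp_pos (-(L / 3))
    nlinarith
  have := Real.exp_pos (-(L / 3))
  linarith

/-- For every large `X` and all `k ≥ 2` with `48 log X ≤ X ^ (1 / k)`: independence of order `k` up to `X` and a gap of
length `X ^ (1 / k) / (24 log X)`. -/
theorem counter_finite (X : ℕ) (hX : 1000 ≤ Real.log X) (k : ℕ) (hk : 2 ≤ k) (hw : 48 * Real.log X ≤ (X : ℝ) ^ (1 / (k : ℝ))) :
    ∃ (Ω : Type) (_ : MeasurableSpace Ω) (P : Measure Ω) (E : ℕ → Set Ω), IsProbabilityMeasure P ∧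
      (∀ Y, IsRandomSet P k Y E) ∧
        P.real {ω | ¬ HasGap E X ((X : ℝ) ^ (1 / (k : ℝ)) / (24 * Real.log X)) ω} ≤ Real.exp (-(Real.log X / 3)) := by
  have hX0' : X ≠ 0 := by
    rintro rfl
    simp at hX
    linarith
  have hX0 : (0 : ℝ) < X := by exact_mod_cast Nat.pos_of_ne_zero hX0'
  have hXe : Real.exp (Real.log X) = X := Real.exp_log hX0
  have hsq : Real.exp (Real.log X / 2) ^ 2 = X := by
    rw [← Real.exp_nat_mul]
    conv_rhs => rw [← hXe]
    congr 1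
    push_cast
    ring
  have hR : 1000 ≤ Real.exp (Real.log X / 2) := by
    have h1 := numeric hX
    have h2 : Real.exp (Real.log X / 6) ≤ Real.exp (Real.log X / 2) := Real.exp_le_exp.2 (by linarith)
    nlinarith
  have hfl : 1 ≤ ⌊(X : ℝ) ^ (1 / (k : ℝ)) / (24 * Real.log X)⌋₊ := by
    refine Nat.le_floor ?_
    rw [le_div_iff₀ (by linarith)]
    push_cast
    linarith
  obtain ⟨Ω, mΩ, P, E, h1, h2, h3⟩ := model_gap k hk (fun _ => 0) (fun _ => ⌊(X : ℝ) ^ (1 / (k : ℝ)) / (24 * Real.log X)⌋₊)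
    (fun _ => hfl)
  refine ⟨Ω, mΩ, P, E, h1, h2, h3 0 X (Nat.sqrt X + 1) (X / 2) hX hw rfl (fun _ _ _ => rfl) le_rfl ?_ ?_⟩
  · have h4 : X < (Nat.sqrt X + 1) ^ 2 := by rw [sq]; exact Nat.lt_succ_sqrt X
    have h5 : (X : ℝ) < (((Nat.sqrt X + 1 : ℕ)) : ℝ) ^ 2 := by exact_mod_cast h4
    rw [← hsq] at h5
    exact (lt_of_pow_lt_pow_left₀ 2 (Nat.cast_nonneg _) h5).le
  · have h4 : (Nat.sqrt X) ^ 2 ≤ X := Nat.sqrt_le' X
    have h5 : ((Nat.sqrt X : ℕ) : ℝ) ^ 2 ≤ Real.exp (Real.log X / 2) ^ 2 := by rw [hsq]; exact_mod_cast h4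
    have h6 := (pow_le_pow_iff_left₀ (by positivity) (Real.exp_pos _).le (by norm_num : (2 : ℕ) ≠ 0)).1 h5
    have h7 : (X : ℝ) ≤ 2 * ((X / 2 : ℕ) : ℝ) + 1 := by
      have : X ≤ 2 * (X / 2) + 1 := by omega
      exact_mod_cast this
    have h8 : Real.exp (Real.log X / 2) * 1000 ≤ X := by
      conv_rhs => rw [← hsq]
      nlinarith
    push_cast
    linarith

/-- For every `k ≥ 2` there is a random set with independence of order `k`, whose largest gap up to `X` is almost surely at least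
`X ^ (1 / k) / (48 log X)` for all large `X`. -/
theorem counter_ae (k : ℕ) (hk : 2 ≤ k) :
    ∃ (Ω : Type) (_ : MeasurableSpace Ω) (P : Measure Ω) (E : ℕ → Set Ω), IsProbabilityMeasure P ∧
      (∀ X, IsRandomSet P k X E) ∧
        ∀ᵐ ω ∂P, ∀ᶠ X : ℕ in atTop, HasGap E X ((X : ℝ) ^ (1 / (k : ℝ)) / (48 * Real.log X)) ω := by
  obtain ⟨Ω, mΩ, P, E, h1, h2, h3⟩ := model_gap k hk (fun n => Nat.log 2 n)
    (fun i => max 1 ⌊((2 ^ (i + 2) : ℕ) : ℝ) ^ (1 / (k : ℝ)) / (24 * Real.log ((2 ^ (i + 2) : ℕ) : ℝ))⌋₊)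
    (fun _ => le_max_left _ _)
  refine ⟨Ω, mΩ, P, E, h1, h2, ?_⟩
  have hl2 : (0.69 : ℝ) < Real.log 2 := by have := Real.log_two_gt_d9; linarith
  have hl2' : Real.log 2 < 0.7 := by have := Real.log_two_lt_d9; linarith
  -- the logarithm is small
  have hev : ∀ᶠ X : ℕ in atTop, 48 * Real.log X ≤ (X : ℝ) ^ (1 / (k : ℝ)) := by
    have hk0 : (0 : ℝ) < 1 / (k : ℝ) := by
      have : (0 : ℝ) < k := by exact_mod_cast (by omega : 0 < k)
      positivity
    have h4 := (isLittleO_log_rpow_atTop hk0).bound (show (0 : ℝ) < 1 / 48 by norm_num)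
    have h5 := tendsto_natCast_atTop_atTop.eventually h4
    filter_upwards [h5, eventually_ge_atTop 1] with X hX hX1
    have hX1' : (1 : ℝ) ≤ X := by exact_mod_cast hX1
    rw [Real.norm_of_nonneg (Real.log_nonneg hX1'), Real.norm_of_nonneg (by positivity)] at hX
    linarith
  obtain ⟨X₁, hX₁⟩ := eventually_atTop.1 hev
  have hpow : ∀ i : ℕ, i ≤ 2 ^ i := fun i => (Nat.lt_two_pow_self).le
  have hlow : ∀ᵐ ω ∂P, ∀ᶠ i : ℕ in atTop, ω ∉ {ω | ¬ HasGap E (2 ^ (i + 2))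
      (((2 ^ (i + 2) : ℕ) : ℝ) ^ (1 / (k : ℝ)) / (24 * Real.log ((2 ^ (i + 2) : ℕ) : ℝ))) ω} := by
    refine ae_eventually _ (fun i => (Real.exp (-(Real.log 2 / 3))) ^ i) (summable_geometric_of_lt_one (Real.exp_pos _).le ?_)
      (max X₁ 2000) ?_
    · rw [Real.exp_lt_one_iff]
      linarith
    · intro i hi
      have hi1 : X₁ ≤ 2 ^ (i + 2) := ((le_max_left _ _).trans hi).trans ((hpow i).trans
        (Nat.pow_le_pow_right (by norm_num) (by omega)))
      have hi2 : (2000 : ℝ) ≤ i := by exact_mod_cast (le_max_right _ _).trans hi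
      have hw := hX₁ _ hi1
      have hlog : Real.log ((2 ^ (i + 2) : ℕ) : ℝ) = ((i : ℝ) + 2) * Real.log 2 := by
        rw [log_two_pow]
        push_cast
        ring
      have hL : 1000 ≤ Real.log ((2 ^ (i + 2) : ℕ) : ℝ) := by
        rw [hlog]
        nlinarith
      have hfl : 1 ≤ ⌊((2 ^ (i + 2) : ℕ) : ℝ) ^ (1 / (k : ℝ)) / (24 * Real.log ((2 ^ (i + 2) : ℕ) : ℝ))⌋₊ := by
        refine Nat.le_floor ?_
        rw [le_div_iff₀ (by linarith), Nat.cast_one]
        linarith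
      refine (h3 i (2 ^ (i + 2)) (2 ^ i) (2 ^ (i + 1)) hL hw (max_eq_right hfl) ?_ ?_ ?_ ?_).trans ?_
      · intro n hn1 hn2
        exact (Nat.log_eq_iff (Or.inr ⟨by norm_num, by have := Nat.pos_of_ne_zero (n := 2 ^ i) (by positivity); omega⟩)).2
          ⟨hn1, hn2⟩
      · rw [pow_succ 2 (i + 1)]
        omega
      · rw [hlog]
        have e1 : Real.exp ((i : ℝ) * Real.log 2) = (2 : ℝ) ^ i := by
          rw [Real.exp_nat_mul, Real.exp_log (by norm_num)]
        push_cast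
        rw [← e1]
        apply Real.exp_le_exp.2
        nlinarith
      · push_cast
        have e2 : (2 : ℝ) ^ (i + 2) = 4 * 2 ^ i := by ring
        have e3 : (2 : ℝ) ^ (i + 1) = 2 * 2 ^ i := by ring
        have e4 : (0 : ℝ) < 2 ^ i := by positivity
        rw [e2, e3]
        linarith
      · rw [hlog, ← Real.exp_nat_mul]
        apply Real.exp_le_exp.2
        nlinarith
  filter_upwards [hlow] with ω hω
  obtain ⟨N, hN⟩ := eventually_atTop.1 hω
  filter_upwards [exists_dyadic (N + 10)] with X hX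
  obtain ⟨i, hi, hiX, hXi⟩ := hX
  obtain ⟨i', rfl⟩ : ∃ i', i = i' + 2 := ⟨i - 2, by omega⟩
  have h4 := hN i' (by omega)
  simp only [not_not] at h4
  refine h4.mono hiX ?_
  set Y : ℝ := ((2 ^ (i' + 2) : ℕ) : ℝ) with hY
  have hY1 : (2 : ℝ) ≤ Y := by
    rw [hY]
    have : 2 ^ 1 ≤ 2 ^ (i' + 2) := Nat.pow_le_pow_right (by norm_num) (by omega)
    exact_mod_cast this
  have hYX : Y ≤ X := by rw [hY]; exact_mod_cast hiX
  have hX2Y : (X : ℝ) ≤ 2 * Y := by
    have : X ≤ 2 * 2 ^ (i' + 2) := by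
      have e : 2 ^ (i' + 2 + 1) = 2 * 2 ^ (i' + 2) := by ring
      omega
    rw [hY]
    exact_mod_cast this
  have hlY : 0 < Real.log Y := Real.log_pos (by linarith)
  have hlYX : Real.log Y ≤ Real.log X := Real.log_le_log (by linarith) hYX
  have hk0 : (0 : ℝ) ≤ 1 / (k : ℝ) := by positivity
  have e5 : (X : ℝ) ^ (1 / (k : ℝ)) ≤ 2 * Y ^ (1 / (k : ℝ)) := by
    calc (X : ℝ) ^ (1 / (k : ℝ)) ≤ (2 * Y) ^ (1 / (k : ℝ)) := Real.rpow_le_rpow (by positivity) hX2Y hk0
      _ = (2 : ℝ) ^ (1 / (k : ℝ)) * Y ^ (1 / (k : ℝ)) := Real.mul_rpow (by norm_num) (by linarith)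
      _ ≤ 2 * Y ^ (1 / (k : ℝ)) := by
          refine mul_le_mul_of_nonneg_right ?_ (by positivity)
          have h6 : (1 : ℝ) / k ≤ 1 := by
            rw [div_le_one (by exact_mod_cast (by omega : 0 < k))]
            exact_mod_cast (by omega : 1 ≤ k)
          calc (2 : ℝ) ^ (1 / (k : ℝ)) ≤ (2 : ℝ) ^ (1 : ℝ) := Real.rpow_le_rpow_of_exponent_le (by norm_num) h6
            _ = 2 := Real.rpow_one 2
  have h7 : 0 < Real.log X := lt_of_lt_of_le hlY hlYX
  rw [div_le_div_iff₀ (by positivity) (by positivity)]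
  have h8 : 0 ≤ Y ^ (1 / (k : ℝ)) := by positivity
  calc (X : ℝ) ^ (1 / (k : ℝ)) * (24 * Real.log Y) ≤ (2 * Y ^ (1 / (k : ℝ))) * (24 * Real.log X) :=
        mul_le_mul e5 (by linarith) (by positivity) (by positivity)
    _ = Y ^ (1 / (k : ℝ)) * (48 * Real.log X) := by ring

end Pool.Agent.Q51.LI
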