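import Pool.Agent.Q51.LI.Void

/-!
# Gaps of random sets with limited independence: the order of magnitude `(log X) ^ 2`
-/

namespace Pool.Agent.Q51.LI

open Finset MeasureTheory

variable {Ω : Type} [MeasurableSpace Ω]

/-- The random set has two consecutive elements `a < b ≤ X` with `b - a ≥ H`. -/
def HasGap (E : ℕ → Set Ω) (X : ℕ) (H : ℝ) (ω : Ω) : Prop :=
  ∃ a b : ℕ, 3 ≤ a ∧ a < b ∧ b ≤ X ∧ ω ∈ E a ∧ ω ∈ E b ∧ (∀ c, a < c → c < b → ω ∉ E c) ∧ H ≤ (b : ℝ) - a

lemma exists_part (f : ℕ → ℝ) (S : Finset ℕ) (hf : ∀ n ∈ S, 0 ≤ f n ∧ f n ≤ 1) (T : ℝ) (hT : T ≤ ∑ n ∈ S, f n)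
    (hT0 : 0 ≤ T) : ∃ S' ⊆ S, T ≤ ∑ n ∈ S', f n ∧ ∑ n ∈ S', f n ≤ T + 1 := by
  induction S using Finset.induction_on with
  | empty => exact ⟨∅, subset_rfl, hT, by simp; linarith⟩
  | insert i S hi ih =>
      by_cases h : T ≤ ∑ n ∈ S, f n
      · obtain ⟨S', h1, h2⟩ := ih (fun n hn => hf n (mem_insert_of_mem hn)) h
        exact ⟨S', h1.trans (subset_insert _ _), h2⟩
      · refine ⟨insert i S, subset_rfl, hT, ?_⟩
        rw [sum_insert hi]
        have := (hf i (mem_insert_self _ _)).2
        push Not at h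
        linarith

variable {P : Measure Ω} {k X : ℕ} {E : ℕ → Set Ω}

lemma one_lt_logX (hX : 3 ≤ X) : 1 < Real.log X := log_pos' hX

lemma pr_ge {n : ℕ} (hn : n ∈ Icc 3 X) : 1 / Real.log X ≤ pr n := by
  rw [mem_Icc] at hn
  unfold pr
  have h1 := log_pos' hn.1
  have hn0 : (0 : ℝ) < n := by have := hn.1; positivity
  exact one_div_le_one_div_of_le (by linarith) (Real.log_le_log hn0 (by exact_mod_cast hn.2))

/-- A set with at least `3 (log X) ^ 2` elements is avoided with probability at most `2 / X ^ 3`. -/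
theorem void_small [IsProbabilityMeasure P] (hX : 3 ≤ X) (hk : 15 * Real.log X ≤ k) (hE : IsRandomSet P k X E)
    {S : Finset ℕ} (hS : S ⊆ Icc 3 X) (hc : 3 * Real.log X ^ 2 ≤ S.card) :
    P.real (void E S) ≤ 2 / (X : ℝ) ^ 3 := by
  have hL := one_lt_logX hX
  set L := Real.log X with hLdef
  have hX0 : (0 : ℝ) < X := by positivity
  have hXe : Real.exp L = X := Real.exp_log hX0
  have hsum : 3 * L ≤ ∑ n ∈ S, pr n := by
    have h1 : ∑ n ∈ S, (1 / L) ≤ ∑ n ∈ S, pr n := sum_le_sum fun n hn => pr_ge (hS hn)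
    rw [sum_const, nsmul_eq_mul] at h1
    refine le_trans ?_ h1
    rw [mul_one_div, le_div_iff₀ (by linarith)]
    nlinarith
  obtain ⟨S', hS', h1, h2⟩ := exists_part pr S (fun n hn => by
    have := pr_mem (mem_Icc.1 (hS hn)).1
    exact ⟨this.1.le, this.2.le⟩) (3 * L) hsum (by linarith)
  have hk1 : 1 ≤ k := by
    have : (0 : ℝ) < k := by linarith
    exact_mod_cast this
  have h3 := void_near hk1 hE (hS'.trans hS) (Real.exp 1) (Real.exp_pos 1)
  have h4 : P.real (void E S) ≤ P.real (void E S') := by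
    refine measureReal_mono ?_
    intro ω hω n hn
    exact hω n (hS' hn)
  have h5 : ∏ n ∈ S', (1 - pr n) ≤ Real.exp (-(3 * L)) := by
    refine le_trans ?_ (Real.exp_le_exp.2 (neg_le_neg h1))
    rw [← sum_neg_distrib, Real.exp_sum]
    refine prod_le_prod (fun n hn => ?_) fun n hn => ?_
    · have := (pr_mem (mem_Icc.1 (hS (hS' hn))).1).2
      linarith
    · have := Real.add_one_le_exp (-pr n)
      linarith
  have he : Real.exp 1 < 2.7182818286 := Real.exp_one_lt_d9
  have h6 : Real.exp (Real.exp 1 * ∑ n ∈ S', pr n) / Real.exp 1 ^ k ≤ Real.exp (-(4 * L)) := by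
    rw [← Real.exp_nat_mul, ← Real.exp_sub]
    apply Real.exp_le_exp.2
    have h7 : Real.exp 1 * ∑ n ∈ S', pr n ≤ 2.72 * (3 * L + 1) := by
      refine mul_le_mul (by linarith) h2 (by linarith) (by norm_num)
    rw [mul_one]
    linarith
  have h8 : P.real (void E S') ≤ Real.exp (-(3 * L)) + 2 * Real.exp (-(4 * L)) := by
    have := (abs_le.1 h3).2
    linarith
  have e3 : Real.exp (-(3 * L)) = 1 / (X : ℝ) ^ 3 := by
    rw [Real.exp_neg, show (3 : ℝ) * L = ((3 : ℕ) : ℝ) * L by norm_num, Real.exp_nat_mul, hXe, one_div]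
  have e4 : Real.exp (-(4 * L)) = 1 / (X : ℝ) ^ 4 := by
    rw [Real.exp_neg, show (4 : ℝ) * L = ((4 : ℕ) : ℝ) * L by norm_num, Real.exp_nat_mul, hXe, one_div]
  have h9 : 2 * (1 / (X : ℝ) ^ 4) ≤ 1 / (X : ℝ) ^ 3 := by
    rw [mul_one_div, div_le_div_iff₀ (by positivity) (by positivity)]
    have : (3 : ℝ) ≤ X := by exact_mod_cast hX
    have h10 : (X : ℝ) ^ 4 = X ^ 3 * X := by ring
    rw [h10]
    nlinarith [show (0 : ℝ) < (X : ℝ) ^ 3 by positivity]
  calc P.real (void E S) ≤ _ := h4.trans h8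
    _ ≤ 1 / (X : ℝ) ^ 3 + 1 / (X : ℝ) ^ 3 := by rw [e3, e4]; linarith
    _ = 2 / (X : ℝ) ^ 3 := by ring

/-- **The upper bound.** -/
theorem gap_upper [IsProbabilityMeasure P] (hX : 3 ≤ X) (hk : 15 * Real.log X ≤ k) (hE : IsRandomSet P k X E) :
    P.real {ω | HasGap E X (6 * Real.log X ^ 2) ω} ≤ 1 / X := by
  have hL := one_lt_logX hX
  set L := Real.log X with hLdef
  have hX0 : (0 : ℝ) < X := by positivity
  set h := ⌈3 * L ^ 2⌉₊ with hh
  have h1 : 3 * L ^ 2 ≤ h := Nat.le_ceil _
  have h2 : (h : ℝ) < 3 * L ^ 2 + 1 := Nat.ceil_lt_add_one (by positivity)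
  have hsub : {ω | HasGap E X (6 * L ^ 2) ω} ⊆ ⋃ a ∈ (Icc 3 X).filter (fun a => a + h ≤ X), void E (Ioc a (a + h)) := by
    rintro ω ⟨a, b, ha, hab, hb, -, -, hc, hH⟩
    have hab' : a + h < b := by
      have : ((a + h : ℕ) : ℝ) < b := by
        push_cast
        nlinarith
      exact_mod_cast this
    rw [Set.mem_iUnion₂]
    refine ⟨a, ?_, ?_⟩
    · rw [mem_filter, mem_Icc]
      omega
    · intro n hn
      rw [mem_Ioc] at hn
      exact hc n hn.1 (by omega)
  calc P.real {ω | HasGap E X (6 * L ^ 2) ω}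
      ≤ P.real (⋃ a ∈ (Icc 3 X).filter (fun a => a + h ≤ X), void E (Ioc a (a + h))) :=
        measureReal_mono hsub (measure_ne_top _ _)
    _ ≤ ∑ a ∈ (Icc 3 X).filter (fun a => a + h ≤ X), P.real (void E (Ioc a (a + h))) :=
        measureReal_biUnion_finset_le _ _
    _ ≤ ∑ a ∈ (Icc 3 X).filter (fun a => a + h ≤ X), 2 / (X : ℝ) ^ 3 := by
        refine sum_le_sum fun a ha => ?_
        rw [mem_filter, mem_Icc] at ha
        refine void_small hX hk hE ?_ ?_
        · intro n hn
          rw [mem_Ioc] at hn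
          rw [mem_Icc]
          omega
        · rw [Nat.card_Ioc]
          have : a + h - a = h := by omega
          rw [this]
          exact h1
    _ ≤ X * (2 / (X : ℝ) ^ 3) := by
        rw [sum_const, nsmul_eq_mul]
        refine mul_le_mul_of_nonneg_right ?_ (by positivity)
        have h3 : ((Icc 3 X).filter (fun a => a + h ≤ X)).card ≤ (Icc 3 X).card := card_filter_le _ _
        rw [Nat.card_Icc] at h3
        have : ((Icc 3 X).filter (fun a => a + h ≤ X)).card ≤ X := by omega
        exact_mod_cast this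
    _ ≤ 1 / X := by
        have e : (X : ℝ) * (2 / (X : ℝ) ^ 3) = (2 / X) * (1 / X) := by field_simp
        rw [e]
        have : (2 : ℝ) / X ≤ 1 := by
          rw [div_le_one hX0]
          have : (3 : ℝ) ≤ X := by exact_mod_cast hX
          linarith
        have h0 : (0 : ℝ) < 1 / X := by positivity
        nlinarith

/-- **Second moments.** -/
theorem second_moment [IsProbabilityMeasure P] (N : ℕ) (V : ℕ → Set Ω) (hV : ∀ j, MeasurableSet (V j)) (Q : ℕ → ℝ)
    (hQ : ∀ j < N, 0 ≤ Q j ∧ Q j ≤ 1) (ε : ℝ) (h1 : ∀ j < N, |P.real (V j) - Q j| ≤ ε)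
    (h2 : ∀ i < N, ∀ j < N, i ≠ j → |P.real (V i ∩ V j) - Q i * Q j| ≤ ε) :
    P.real {ω | ∀ j < N, ω ∉ V j} * (∑ j ∈ range N, Q j) ^ 2 ≤ N + 3 * ε * N ^ 2 := by
  classical
  set f : ℕ → Ω → ℝ := fun j ω => (V j).indicator (fun _ => (1 : ℝ)) ω - Q j with hf
  have hint : ∀ j, Integrable ((V j).indicator (fun _ => (1 : ℝ))) P := fun j => (integrable_const (1 : ℝ)).indicator (hV j)
  have hpair : ∀ i j, f i * f j = fun ω => (V i ∩ V j).indicator (fun _ => (1 : ℝ)) ω -
      Q i * (V j).indicator (fun _ => (1 : ℝ)) ω - Q j * (V i).indicator (fun _ => (1 : ℝ)) ω + Q i * Q j := by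
    intro i j
    funext ω
    simp only [hf, Pi.mul_apply, Set.indicator_apply, Set.mem_inter_iff]
    by_cases hi : ω ∈ V i <;> by_cases hj : ω ∈ V j <;> simp [hi, hj] <;> ring
  have hintp : ∀ i j, Integrable (f i * f j) P := by
    intro i j
    rw [hpair]
    exact (((((integrable_const (1 : ℝ)).indicator ((hV i).inter (hV j))).sub ((hint j).const_mul _)).sub
      ((hint i).const_mul _)).add (integrable_const _))
  have hval : ∀ i j, ∫ ω, (f i * f j) ω ∂P = P.real (V i ∩ V j) - Q i * P.real (V j) - Q j * P.real (V i) + Q i * Q j := by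
    intro i j
    rw [hpair]
    have a1 : ∀ A : Set Ω, MeasurableSet A → ∫ ω, A.indicator (fun _ => (1 : ℝ)) ω ∂P = P.real A := by
      intro A hA
      rw [integral_indicator hA, setIntegral_const, smul_eq_mul, mul_one]
    rw [integral_add, integral_sub, integral_sub, integral_const_mul, integral_const_mul, a1 _ ((hV i).inter (hV j)),
      a1 _ (hV j), a1 _ (hV i), integral_const]
    · simp
    · exact (integrable_const (1 : ℝ)).indicator ((hV i).inter (hV j))
    · exact (hint j).const_mul _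
    · exact ((integrable_const (1 : ℝ)).indicator ((hV i).inter (hV j))).sub ((hint j).const_mul _)
    · exact (hint i).const_mul _
    · exact ((((integrable_const (1 : ℝ)).indicator ((hV i).inter (hV j))).sub ((hint j).const_mul _)).sub
        ((hint i).const_mul _))
    · exact integrable_const _
  -- the square of the sum
  have hsq : (fun ω => (∑ j ∈ range N, f j ω) ^ 2) = fun ω => ∑ i ∈ range N, ∑ j ∈ range N, (f i * f j) ω := by
    funext ω
    rw [sq, sum_mul_sum]
    rfl
  have hE2 : ∫ ω, (∑ j ∈ range N, f j ω) ^ 2 ∂P ≤ N + 3 * ε * N ^ 2 := by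
    rw [hsq, integral_finsetSum _ fun i _ => integrable_finsetSum _ fun j _ => hintp i j]
    have hb : ∀ i ∈ range N, ∫ ω, ∑ j ∈ range N, (f i * f j) ω ∂P ≤ 1 + N * (3 * ε) := by
      intro i hi
      rw [integral_finsetSum _ fun j _ => hintp i j]
      have hi' := mem_range.1 hi
      have hε : 0 ≤ ε := le_trans (abs_nonneg _) (h1 i hi')
      have hc : ∀ j ∈ range N, ∫ ω, (f i * f j) ω ∂P ≤ (if j = i then 1 else 0) + 3 * ε := by
        intro j hj
        have hj' := mem_range.1 hj
        rw [hval]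
        have b1 := abs_le.1 (h1 i hi')
        have b2 := abs_le.1 (h1 j hj')
        have q1 := hQ i hi'
        have q2 := hQ j hj'
        split_ifs with hij
        · subst hij
          rw [Set.inter_self]
          have p1 : P.real (V j) ≤ 1 := measureReal_le_one
          have p0 : 0 ≤ P.real (V j) := measureReal_nonneg
          nlinarith
        · have b3 := abs_le.1 (h2 i hi' j hj' (fun h => hij h.symm))
          have m1 : Q i * (Q j - P.real (V j)) ≤ 1 * ε := by
            refine (mul_le_mul_of_nonneg_left (by linarith : Q j - P.real (V j) ≤ ε) q1.1).trans ?_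
            exact mul_le_mul_of_nonneg_right q1.2 hε
          have m2 : Q j * (Q i - P.real (V i)) ≤ 1 * ε := by
            refine (mul_le_mul_of_nonneg_left (by linarith : Q i - P.real (V i) ≤ ε) q2.1).trans ?_
            exact mul_le_mul_of_nonneg_right q2.2 hε
          linarith [b3.2]
      refine (sum_le_sum hc).trans ?_
      rw [sum_add_distrib, sum_const, card_range, nsmul_eq_mul]
      have : ∑ j ∈ range N, (if j = i then (1 : ℝ) else 0) ≤ 1 := by
        rw [sum_ite_eq']
        split_ifs <;> norm_num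
      linarith
    refine (sum_le_sum hb).trans ?_
    rw [sum_const, card_range, nsmul_eq_mul]
    nlinarith
  -- Chebyshev
  have hm : MeasurableSet {ω | ∀ j < N, ω ∉ V j} := by
    have : {ω | ∀ j < N, ω ∉ V j} = ⋂ j ∈ range N, (V j)ᶜ := by
      ext ω
      simp
    rw [this]
    exact Finset.measurableSet_biInter _ fun j _ => (hV j).compl
  have hlow : P.real {ω | ∀ j < N, ω ∉ V j} * (∑ j ∈ range N, Q j) ^ 2 ≤ ∫ ω, (∑ j ∈ range N, f j ω) ^ 2 ∂P := by
    have e : P.real {ω | ∀ j < N, ω ∉ V j} * (∑ j ∈ range N, Q j) ^ 2 =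
        ∫ ω, ({ω | ∀ j < N, ω ∉ V j}).indicator (fun _ => (∑ j ∈ range N, Q j) ^ 2) ω ∂P := by
      rw [integral_indicator hm, setIntegral_const, smul_eq_mul]
    rw [e]
    refine integral_mono ((integrable_const _).indicator hm) ?_ ?_
    · rw [hsq]
      exact integrable_finsetSum _ fun i _ => integrable_finsetSum _ fun j _ => hintp i j
    · intro ω
      by_cases h : ω ∈ {ω | ∀ j < N, ω ∉ V j}
      · rw [Set.indicator_of_mem h]
        have : ∑ j ∈ range N, f j ω = - ∑ j ∈ range N, Q j := by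
          rw [← sum_neg_distrib]
          refine sum_congr rfl fun j hj => ?_
          simp only [hf]
          rw [Set.indicator_of_notMem (h j (mem_range.1 hj))]
          ring
        show _ ≤ (∑ j ∈ range N, f j ω) ^ 2
        rw [this, neg_sq]
      · rw [Set.indicator_of_notMem h]
        exact sq_nonneg _
  exact hlow.trans hE2

end Pool.Agent.Q51.LI
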