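import Pool.Agent.Q51.LI.As

/-!
# An upper bound for the gaps from independence of order `2 r`
-/

namespace Pool.Agent.Q51.LI

open Finset MeasureTheory Filter

variable {Ω : Type} [MeasurableSpace Ω] {P : Measure Ω} {k X : ℕ} {E : ℕ → Set Ω}

/-- number of elements in `S` minus its mean -/
noncomputable def dev (E : ℕ → Set Ω) (S : Finset ℕ) (ω : Ω) : ℝ := ∑ n ∈ S, (ind E ω n - pr n)

/-- `F` is bounded, measurable and uncorrelated with all products of at most `j` indicator functions of `A`. -/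
def Free (P : Measure Ω) (E : ℕ → Set Ω) (F : Ω → ℝ) (m : ℝ) (j : ℕ) (A : Finset ℕ) : Prop :=
  Measurable F ∧ (∃ C : ℝ, ∀ ω, |F ω| ≤ C) ∧
    ∀ T ⊆ A, T.card ≤ j → ∫ ω, F ω * ∏ n ∈ T, ind E ω n ∂P = m * ∏ n ∈ T, pr n

lemma measurable_ind (hE : IsRandomSet P k X E) {n : ℕ} (hn : n ∈ Icc 3 X) : Measurable fun ω => ind E ω n := by
  unfold ind
  exact measurable_const.indicator (hE.1 n hn)

lemma free_one [IsProbabilityMeasure P] (hE : IsRandomSet P k X E) : Free P E (fun _ => 1) 1 k (Icc 3 X) := by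
  refine ⟨measurable_const, ⟨1, fun ω => by simp⟩, fun T hT hc => ?_⟩
  simp_rw [one_mul, prod_ind]
  rw [integral_indicator (measurable_inter hE hT), setIntegral_const, smul_eq_mul, mul_one, real_inter hE hT hc]

lemma abs_prod_ind_le (E : ℕ → Set Ω) (T : Finset ℕ) (ω : Ω) : |∏ n ∈ T, ind E ω n| ≤ 1 := by
  rw [abs_prod]
  refine prod_le_one (fun n _ => abs_nonneg _) fun n _ => ?_
  have := ind_mem E ω n
  rw [abs_of_nonneg this.1]
  exact this.2

lemma Free.integrable [IsProbabilityMeasure P] (hE : IsRandomSet P k X E) {F : Ω → ℝ} {m : ℝ} {j : ℕ} {A : Finset ℕ}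
    (hF : Free P E F m j A) {T : Finset ℕ} (hT : T ⊆ Icc 3 X) : Integrable (fun ω => F ω * ∏ n ∈ T, ind E ω n) P := by
  obtain ⟨h1, ⟨C, hC⟩, -⟩ := hF
  refine Integrable.of_bound (C := C) ?_ (Eventually.of_forall fun ω => ?_)
  · exact (h1.mul (Finset.measurable_prod T fun n hn => measurable_ind hE (hT hn))).aestronglyMeasurable
  · rw [Real.norm_eq_abs, abs_mul]
    calc |F ω| * |∏ n ∈ T, ind E ω n| ≤ |F ω| * 1 := mul_le_mul_of_nonneg_left (abs_prod_ind_le E T ω) (abs_nonneg _)
      _ ≤ C := by rw [mul_one]; exact hC ω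

/-- One more group. -/
lemma Free.step [IsProbabilityMeasure P] (hE : IsRandomSet P k X E) {F : Ω → ℝ} {m : ℝ} {j : ℕ} {A S : Finset ℕ}
    (hF : Free P E F m (j + 2) A) (hA : A ⊆ Icc 3 X) (hS : S ⊆ A) :
    Free P E (fun ω => F ω * dev E S ω ^ 2) (m * ∑ n ∈ S, pr n * (1 - pr n)) j (A \ S) := by
  classical
  have hdm : Measurable (dev E S) := by
    unfold dev
    exact Finset.measurable_sum S fun n hn => (measurable_ind hE (hA (hS hn))).sub measurable_const
  have hdb : ∀ ω, |dev E S ω| ≤ S.card := by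
    intro ω
    unfold dev
    refine (abs_sum_le_sum_abs _ _).trans ?_
    have : ∀ n ∈ S, |ind E ω n - pr n| ≤ 1 := by
      intro n hn
      have h1 := ind_mem E ω n
      have h2 := pr_mem (mem_Icc.1 (hA (hS hn))).1
      rw [abs_le]
      constructor <;> linarith [h2.1, h2.2, h1.1, h1.2]
    refine (sum_le_sum this).trans ?_
    simp
  obtain ⟨C, hC⟩ := hF.2.1
  refine ⟨hF.1.mul (hdm.pow_const 2), ⟨C * (S.card : ℝ) ^ 2, fun ω => ?_⟩, fun T hT hc => ?_⟩
  · rw [abs_mul, abs_pow]
    have h0 : 0 ≤ |F ω| := abs_nonneg _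
    have h1 : |dev E S ω| ^ 2 ≤ (S.card : ℝ) ^ 2 := pow_le_pow_left₀ (abs_nonneg _) (hdb ω) 2
    exact mul_le_mul (hC ω) h1 (by positivity) (h0.trans (hC ω))
  · have hTA : T ⊆ A := hT.trans sdiff_subset
    have hTX : T ⊆ Icc 3 X := hTA.trans hA
    have hnT : ∀ n ∈ S, n ∉ T := fun n hn hnT => (Finset.mem_sdiff.1 (hT hnT)).2 hn
    -- the expansion
    have hexp : ∀ ω, F ω * dev E S ω ^ 2 * ∏ n ∈ T, ind E ω n =
        ∑ a ∈ S, ∑ b ∈ S, (F ω * (ind E ω a * ind E ω b * ∏ n ∈ T, ind E ω n) -
          pr a * (F ω * (ind E ω b * ∏ n ∈ T, ind E ω n)) - pr b * (F ω * (ind E ω a * ∏ n ∈ T, ind E ω n)) +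
          pr a * pr b * (F ω * ∏ n ∈ T, ind E ω n)) := by
      intro ω
      have e : F ω * dev E S ω ^ 2 * ∏ n ∈ T, ind E ω n =
          ∑ a ∈ S, ∑ b ∈ S, (ind E ω a - pr a) * (ind E ω b - pr b) * (F ω * ∏ n ∈ T, ind E ω n) := by
        unfold dev
        rw [sq, sum_mul_sum]
        simp_rw [← sum_mul]
        ring
      rw [e]
      refine sum_congr rfl fun a _ => sum_congr rfl fun b _ => by ring
    have hsingle : ∀ a ∈ S, ∀ ω, ind E ω a * ∏ n ∈ T, ind E ω n = ∏ n ∈ insert a T, ind E ω n := fun a ha ω => by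
      rw [prod_insert (hnT a ha)]
    have hdouble : ∀ a ∈ S, ∀ b ∈ S, ∀ ω, ind E ω a * ind E ω b * ∏ n ∈ T, ind E ω n =
        ∏ n ∈ insert a (insert b T), ind E ω n := by
      intro a ha b hb ω
      by_cases hab : a = b
      · subst hab
        rw [insert_idem, prod_insert (hnT a ha)]
        have : ind E ω a * ind E ω a = ind E ω a := by
          unfold ind
          rw [Set.indicator_apply]
          split_ifs <;> norm_num
        rw [this]
      · rw [prod_insert, prod_insert (hnT b hb), mul_assoc]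
        rw [mem_insert, not_or]
        exact ⟨hab, hnT a ha⟩
    have hsubI : ∀ a ∈ S, insert a T ⊆ Icc 3 X := fun a ha => insert_subset (hA (hS ha)) hTX
    have hsubI2 : ∀ a ∈ S, ∀ b ∈ S, insert a (insert b T) ⊆ Icc 3 X := fun a ha b hb =>
      insert_subset (hA (hS ha)) (hsubI b hb)
    have i1 : ∀ a ∈ S, ∀ b ∈ S, Integrable (fun ω => F ω * (ind E ω a * ind E ω b * ∏ n ∈ T, ind E ω n)) P := by
      intro a ha b hb
      simp_rw [hdouble a ha b hb]
      exact hF.integrable hE (hsubI2 a ha b hb)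
    have i2 : ∀ a ∈ S, Integrable (fun ω => F ω * (ind E ω a * ∏ n ∈ T, ind E ω n)) P := by
      intro a ha
      simp_rw [hsingle a ha]
      exact hF.integrable hE (hsubI a ha)
    have i3 : Integrable (fun ω => F ω * ∏ n ∈ T, ind E ω n) P := hF.integrable hE hTX
    have v1 : ∀ a ∈ S, ∀ b ∈ S, ∫ ω, F ω * (ind E ω a * ind E ω b * ∏ n ∈ T, ind E ω n) ∂P =
        m * (∏ n ∈ T, pr n) * (if a = b then pr a else pr a * pr b) := by
      intro a ha b hb
      simp_rw [hdouble a ha b hb]
      rw [hF.2.2 _ (insert_subset (hS ha) (insert_subset (hS hb) hTA))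
        ((card_insert_le _ _).trans (by have := card_insert_le b T; omega))]
      split_ifs with hab
      · subst hab
        rw [insert_idem, prod_insert (hnT a ha)]
        ring
      · rw [prod_insert, prod_insert (hnT b hb)]
        · ring
        · rw [mem_insert, not_or]
          exact ⟨hab, hnT a ha⟩
    have v2 : ∀ a ∈ S, ∫ ω, F ω * (ind E ω a * ∏ n ∈ T, ind E ω n) ∂P = m * (∏ n ∈ T, pr n) * pr a := by
      intro a ha
      simp_rw [hsingle a ha]
      rw [hF.2.2 _ (insert_subset (hS ha) hTA) ((card_insert_le _ _).trans (by omega)), prod_insert (hnT a ha)]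
      ring
    have v3 : ∫ ω, F ω * ∏ n ∈ T, ind E ω n ∂P = m * ∏ n ∈ T, pr n := hF.2.2 T hTA (by omega)
    have iab : ∀ a ∈ S, ∀ b ∈ S, Integrable (fun ω => F ω * (ind E ω a * ind E ω b * ∏ n ∈ T, ind E ω n) -
          pr a * (F ω * (ind E ω b * ∏ n ∈ T, ind E ω n)) - pr b * (F ω * (ind E ω a * ∏ n ∈ T, ind E ω n)) +
          pr a * pr b * (F ω * ∏ n ∈ T, ind E ω n)) P := fun a ha b hb =>
      (((i1 a ha b hb).sub ((i2 b hb).const_mul _)).sub ((i2 a ha).const_mul _)).add (i3.const_mul _)
    simp_rw [hexp]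
    rw [integral_finsetSum _ fun a ha => integrable_finsetSum _ fun b hb => iab a ha b hb]
    have hin : ∀ a ∈ S, ∫ ω, ∑ b ∈ S, (F ω * (ind E ω a * ind E ω b * ∏ n ∈ T, ind E ω n) -
          pr a * (F ω * (ind E ω b * ∏ n ∈ T, ind E ω n)) - pr b * (F ω * (ind E ω a * ∏ n ∈ T, ind E ω n)) +
          pr a * pr b * (F ω * ∏ n ∈ T, ind E ω n)) ∂P = m * (∏ n ∈ T, pr n) * (pr a * (1 - pr a)) := by
      intro a ha
      rw [integral_finsetSum _ fun b hb => iab a ha b hb]
      have hb : ∀ b ∈ S, ∫ ω, (F ω * (ind E ω a * ind E ω b * ∏ n ∈ T, ind E ω n) -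
          pr a * (F ω * (ind E ω b * ∏ n ∈ T, ind E ω n)) - pr b * (F ω * (ind E ω a * ∏ n ∈ T, ind E ω n)) +
          pr a * pr b * (F ω * ∏ n ∈ T, ind E ω n)) ∂P = if b = a then m * (∏ n ∈ T, pr n) * (pr a * (1 - pr a)) else 0 := by
        intro b hb
        rw [integral_add, integral_sub, integral_sub, integral_const_mul, integral_const_mul,
          integral_const_mul, v1 a ha b hb, v2 a ha, v2 b hb, v3]
        · by_cases hab : a = b
          · subst hab
            rw [if_pos rfl, if_pos rfl]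
            ring
          · rw [if_neg hab, if_neg (fun h => hab h.symm)]
            ring
        · exact i1 a ha b hb
        · exact (i2 b hb).const_mul _
        · exact (i1 a ha b hb).sub ((i2 b hb).const_mul _)
        · exact (i2 a ha).const_mul _
        · exact ((i1 a ha b hb).sub ((i2 b hb).const_mul _)).sub ((i2 a ha).const_mul _)
        · exact i3.const_mul _
      rw [sum_congr rfl hb, sum_ite_eq' S a, if_pos ha]
    rw [sum_congr rfl hin, ← mul_sum]
    ring

/-- **The upper bound from independence of order `2 r`**: a union of `r` consecutive intervals of length `h`. -/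
lemma free_blocks [IsProbabilityMeasure P] (hE : IsRandomSet P k X E) (h a r : ℕ) (ha : 3 ≤ a) (hX : a + r * h ≤ X + 1)
    (hk : 2 * r ≤ k) : Free P E (fun ω => ∏ i ∈ range r, dev E (Ico (a + i * h) (a + (i + 1) * h)) ω ^ 2)
      (∏ i ∈ range r, ∑ n ∈ Ico (a + i * h) (a + (i + 1) * h), pr n * (1 - pr n)) (k - 2 * r)
      (Icc 3 X \ Ico a (a + r * h)) := by
  classical
  induction r with
  | zero =>
      have := free_one hE
      simpa using this
  | succ r ih =>
      have e0 : (r + 1) * h = r * h + h := by ring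
      have h1 := ih (by omega) (by omega)
      have h2 : k - 2 * r = k - 2 * (r + 1) + 2 := by omega
      rw [h2] at h1
      have h3 : Ico (a + r * h) (a + (r + 1) * h) ⊆ Icc 3 X \ Ico a (a + r * h) := by
        intro n hn
        rw [mem_Ico] at hn
        rw [Finset.mem_sdiff, mem_Icc, mem_Ico]
        omega
      have h4 := Free.step hE h1 sdiff_subset h3
      have h5 : (Icc 3 X \ Ico a (a + r * h)) \ Ico (a + r * h) (a + (r + 1) * h) = Icc 3 X \ Ico a (a + (r + 1) * h) := by
        ext n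
        simp only [Finset.mem_sdiff, mem_Icc, mem_Ico]
        omega
      rw [h5] at h4
      simp_rw [prod_range_succ]
      exact h4

lemma void_blocks [IsProbabilityMeasure P] (hX3 : 3 ≤ X) (hE : IsRandomSet P k X E) (h a r : ℕ) (hh : 1 ≤ h) (ha : 3 ≤ a)
    (hX : a + r * h ≤ X + 1) (hk : 2 * r ≤ k) : P.real (void E (Ico a (a + r * h))) ≤ (Real.log X / h) ^ r := by
  classical
  have hL := one_lt_logX hX3
  have hh0 : (0 : ℝ) < h := by exact_mod_cast hh
  have hfree := free_blocks hE h a r ha hX hk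
  set I : ℕ → Finset ℕ := fun i => Ico (a + i * h) (a + (i + 1) * h) with hI
  have hIsub : ∀ i ∈ range r, I i ⊆ Icc 3 X ∧ I i ⊆ Ico a (a + r * h) := by
    intro i hi
    have h1 : (i + 1) * h ≤ r * h := Nat.mul_le_mul_right _ (mem_range.1 hi)
    have h0 : 0 ≤ i * h := Nat.zero_le _
    constructor
    · intro n hn
      simp only [hI, mem_Ico] at hn
      rw [mem_Icc]
      omega
    · intro n hn
      simp only [hI, mem_Ico] at hn
      rw [mem_Ico]
      omega
  have hval := hfree.2.2 ∅ (empty_subset _) (by simp)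
  simp only [prod_empty, mul_one] at hval
  set μ : ℕ → ℝ := fun i => ∑ n ∈ I i, pr n with hμ
  have hμlow : ∀ i ∈ range r, (h : ℝ) / Real.log X ≤ μ i := by
    intro i hi
    have h1 : ∑ n ∈ I i, 1 / Real.log X ≤ μ i := sum_le_sum fun n hn => pr_ge ((hIsub i hi).1 hn)
    refine le_trans (le_of_eq ?_) h1
    rw [sum_const, nsmul_eq_mul]
    have : (I i).card = h := by
      simp only [hI, Nat.card_Ico]
      have e : (i + 1) * h = i * h + h := by ring
      omega
    rw [this]
    ring
  have hμpos : ∀ i ∈ range r, 0 < μ i := fun i hi => lt_of_lt_of_le (by positivity) (hμlow i hi)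
  have hvar : ∏ i ∈ range r, ∑ n ∈ I i, pr n * (1 - pr n) ≤ ∏ i ∈ range r, μ i := by
    refine prod_le_prod (fun i hi => sum_nonneg fun n hn => ?_) fun i hi => sum_le_sum fun n hn => ?_
    · have := pr_mem (mem_Icc.1 ((hIsub i hi).1 hn)).1
      nlinarith [this.1, this.2]
    · have := pr_mem (mem_Icc.1 ((hIsub i hi).1 hn)).1
      nlinarith [this.1, this.2]
  -- Markov
  have hvoid : MeasurableSet (void E (Ico a (a + r * h))) := by
    refine measurable_void hE fun n hn => ?_
    rw [mem_Ico] at hn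
    rw [mem_Icc]
    omega
  have hlow : P.real (void E (Ico a (a + r * h))) * (∏ i ∈ range r, μ i) ^ 2 ≤
      ∫ ω, ∏ i ∈ range r, dev E (I i) ω ^ 2 ∂P := by
    have e : P.real (void E (Ico a (a + r * h))) * (∏ i ∈ range r, μ i) ^ 2 =
        ∫ ω, (void E (Ico a (a + r * h))).indicator (fun _ => (∏ i ∈ range r, μ i) ^ 2) ω ∂P := by
      rw [integral_indicator hvoid, setIntegral_const, smul_eq_mul]
    rw [e]
    refine integral_mono ((integrable_const _).indicator hvoid) ?_ ?_
    · have := hfree.integrable hE (T := ∅) (empty_subset _)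
      simpa using this
    · intro ω
      by_cases hω : ω ∈ void E (Ico a (a + r * h))
      · rw [Set.indicator_of_mem hω]
        refine le_of_eq ?_
        show _ = ∏ i ∈ range r, dev E (I i) ω ^ 2
        rw [← prod_pow]
        refine prod_congr rfl fun i hi => ?_
        have : dev E (I i) ω = - μ i := by
          unfold dev
          rw [hμ, ← sum_neg_distrib]
          refine sum_congr rfl fun n hn => ?_
          have h0 : ind E ω n = 0 := by
            unfold ind
            exact Set.indicator_of_notMem (hω n ((hIsub i hi).2 hn)) _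
          rw [h0, zero_sub]
        rw [this, neg_sq]
      · rw [Set.indicator_of_notMem hω]
        exact prod_nonneg fun i _ => sq_nonneg _
  have hprodpos : 0 < ∏ i ∈ range r, μ i := prod_pos hμpos
  have h1 : P.real (void E (Ico a (a + r * h))) * (∏ i ∈ range r, μ i) ^ 2 ≤ ∏ i ∈ range r, μ i := by
    refine hlow.trans ?_
    rw [hval]
    exact hvar
  have h2 : P.real (void E (Ico a (a + r * h))) * (∏ i ∈ range r, μ i) ≤ 1 := by
    refine le_of_mul_le_mul_right ?_ hprodpos
    calc P.real (void E (Ico a (a + r * h))) * (∏ i ∈ range r, μ i) * (∏ i ∈ range r, μ i)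
        = P.real (void E (Ico a (a + r * h))) * (∏ i ∈ range r, μ i) ^ 2 := by ring
      _ ≤ ∏ i ∈ range r, μ i := h1
      _ = 1 * ∏ i ∈ range r, μ i := (one_mul _).symm
  have h3 : ((h : ℝ) / Real.log X) ^ r ≤ ∏ i ∈ range r, μ i := by
    have := prod_le_prod (fun i _ => by positivity) hμlow
    rwa [prod_const, card_range] at this
  have h4 : P.real (void E (Ico a (a + r * h))) * ((h : ℝ) / Real.log X) ^ r ≤ 1 :=
    (mul_le_mul_of_nonneg_left h3 measureReal_nonneg).trans h2
  have h5 : (0 : ℝ) < ((h : ℝ) / Real.log X) ^ r := by positivity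
  have h6 : (Real.log X / h) ^ r = 1 / ((h : ℝ) / Real.log X) ^ r := by
    rw [one_div, ← inv_pow, inv_div]
  rw [h6, le_div_iff₀ h5]
  exact h4

/-- **The upper bound from independence of order `2 r`.** -/
theorem gap_moment [IsProbabilityMeasure P] (hX3 : 3 ≤ X) (hE : IsRandomSet P k X E) (h r : ℕ) (hh : 1 ≤ h) (hr : 1 ≤ r)
    (hk : 2 * r ≤ k) : P.real {ω | HasGap E X (2 * r * h + 1) ω} ≤ X * Real.log X ^ r / (h : ℝ) ^ (r + 1) := by
  classical
  have hL := one_lt_logX hX3
  have hh0 : (0 : ℝ) < h := by exact_mod_cast hh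
  have hX0 : (0 : ℝ) < X := by positivity
  set B := r * h with hB
  have hB1 : 1 ≤ B := Nat.mul_pos (by omega) (by omega)
  have hsub : {ω | HasGap E X (2 * r * h + 1) ω} ⊆
      ⋃ j ∈ (range (X / B)).filter (fun j => 3 ≤ j * B + 1), void E (Ico (j * B + 1) (j * B + 1 + r * h)) := by
    rintro ω ⟨a, b, ha, hab, hb, -, -, hc, hH⟩
    have hab' : a + 2 * B + 1 ≤ b := by
      have : ((a + 2 * B + 1 : ℕ) : ℝ) ≤ b := by
        rw [hB]
        push_cast
        linarith
      exact_mod_cast this
    have hd : a < (a / B + 1) * B ∧ (a / B + 1) * B ≤ a + B := by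
      have h1 := Nat.lt_div_mul_add (a := a) (b := B) (by omega)
      have h2 := Nat.div_mul_le_self a B
      have e : (a / B + 1) * B = a / B * B + B := by ring
      omega
    rw [Set.mem_iUnion₂]
    refine ⟨a / B + 1, ?_, ?_⟩
    · rw [mem_filter, mem_range]
      refine ⟨?_, by omega⟩
      rw [Nat.lt_iff_add_one_le, Nat.le_div_iff_mul_le (by omega)]
      have e : (a / B + 1 + 1) * B = (a / B + 1) * B + B := by ring
      omega
    · intro n hn
      rw [mem_Ico] at hn
      refine hc n (by omega) (by omega)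
  calc P.real {ω | HasGap E X (2 * r * h + 1) ω}
      ≤ P.real (⋃ j ∈ (range (X / B)).filter (fun j => 3 ≤ j * B + 1), void E (Ico (j * B + 1) (j * B + 1 + r * h))) :=
        measureReal_mono hsub (measure_ne_top _ _)
    _ ≤ ∑ j ∈ (range (X / B)).filter (fun j => 3 ≤ j * B + 1), P.real (void E (Ico (j * B + 1) (j * B + 1 + r * h))) :=
        measureReal_biUnion_finset_le _ _
    _ ≤ ∑ j ∈ (range (X / B)).filter (fun j => 3 ≤ j * B + 1), (Real.log X / h) ^ r := by
        refine sum_le_sum fun j hj => ?_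
        rw [mem_filter, mem_range] at hj
        refine void_blocks hX3 hE h _ r hh hj.2 ?_ hk
        have h1 : (j + 1) * B ≤ X / B * B := Nat.mul_le_mul_right _ hj.1
        have h2 := Nat.div_mul_le_self X B
        have e : (j + 1) * B = j * B + B := by ring
        omega
    _ ≤ (X / h) * (Real.log X / h) ^ r := by
        rw [sum_const, nsmul_eq_mul]
        refine mul_le_mul_of_nonneg_right ?_ (by positivity)
        have h1 : ((range (X / B)).filter (fun j => 3 ≤ j * B + 1)).card ≤ (range (X / B)).card := card_filter_le _ _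
        rw [card_range] at h1
        have h2 : (((range (X / B)).filter (fun j => 3 ≤ j * B + 1)).card : ℝ) ≤ ((X / B : ℕ) : ℝ) := by exact_mod_cast h1
        refine h2.trans (Nat.cast_div_le.trans ?_)
        refine div_le_div_of_nonneg_left hX0.le hh0 ?_
        have : h ≤ B := Nat.le_mul_of_pos_left h (by omega)
        exact_mod_cast this
    _ = X * Real.log X ^ r / (h : ℝ) ^ (r + 1) := by
        rw [div_pow, pow_succ]
        field_simp

end Pool.Agent.Q51.LI
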