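import Pool.Agent.Q51.LI.Moment

/-!
# An almost sure upper bound for the gaps from independence of order `2 r`
-/

namespace Pool.Agent.Q51.LI

open Finset MeasureTheory Filter

variable {Ω : Type} [MeasurableSpace Ω]

/-- With independence of order `2 r` the largest gap up to `X` is almost surely smaller than `X ^ (1 / (r + 1) + ε)` for all
large `X`. -/
theorem ae_moment {P : Measure Ω} [IsProbabilityMeasure P] (r k : ℕ) (hr : 1 ≤ r) (hk : 2 * r ≤ k) (E : ℕ → Set Ω)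
    (h : ∀ X, IsRandomSet P k X E) (ε : ℝ) (hε : 0 < ε) :
    ∀ᵐ ω ∂P, ∀ᶠ X : ℕ in atTop, ¬ HasGap E X ((X : ℝ) ^ (1 / ((r : ℝ) + 1) + ε)) ω := by
  set θ : ℝ := 1 / ((r : ℝ) + 1) + ε / 2 with hθ
  have hr0 : (0 : ℝ) < (r : ℝ) + 1 := by positivity
  have hθ0 : 0 < θ := by positivity
  set g : ℕ → ℕ := fun i => ⌈((2 ^ i : ℕ) : ℝ) ^ θ⌉₊ with hg
  set ρ : ℝ := (2 : ℝ) ^ (-(((r : ℝ) + 1) * (ε / 2))) with hρ
  have hρ0 : 0 < ρ := by positivity
  have hρ1 : ρ < 1 := by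
    rw [hρ]
    exact Real.rpow_lt_one_of_one_lt_of_neg (by norm_num) (by
      have : 0 < ((r : ℝ) + 1) * (ε / 2) := by positivity
      linarith)
  have hsum : Summable fun i : ℕ => (i : ℝ) ^ r * ρ ^ i :=
    summable_pow_mul_geometric_of_norm_lt_one r (by rw [Real.norm_of_nonneg hρ0.le]; exact hρ1)
  have hev : ∀ᵐ ω ∂P, ∀ᶠ i : ℕ in atTop, ω ∉ {ω | HasGap E (2 ^ i) (2 * r * (g i : ℕ) + 1) ω} := by
    refine ae_eventually _ _ hsum 2 ?_
    intro i hi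
    have hY3 : 3 ≤ 2 ^ i := by
      have : 2 ^ 2 ≤ 2 ^ i := Nat.pow_le_pow_right (by norm_num) hi
      omega
    have hY1 : (1 : ℝ) ≤ ((2 ^ i : ℕ) : ℝ) := by
      have : 1 ≤ 2 ^ i := by omega
      exact_mod_cast this
    have hY0 : (0 : ℝ) < ((2 ^ i : ℕ) : ℝ) := by linarith
    have hgi : ((2 ^ i : ℕ) : ℝ) ^ θ ≤ g i := Nat.le_ceil _
    have hgpos : 1 ≤ g i := by
      have h1 : (0 : ℝ) < g i := lt_of_lt_of_le (by positivity) hgi
      exact_mod_cast h1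
    refine (gap_moment hY3 (h _) (g i) r hgpos hr hk).trans ?_
    set Y : ℝ := ((2 ^ i : ℕ) : ℝ) with hY
    have h1 : Y ^ (1 + ((r : ℝ) + 1) * (ε / 2)) ≤ (g i : ℝ) ^ (r + 1) := by
      have h2 : Y ^ (1 + ((r : ℝ) + 1) * (ε / 2)) = (Y ^ θ) ^ (r + 1) := by
        rw [← Real.rpow_mul_natCast hY0.le]
        congr 1
        rw [hθ]
        push_cast
        field_simp
      rw [h2]
      exact pow_le_pow_left₀ (by positivity) hgi _
    have hlog : Real.log Y ≤ i := by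
      rw [hY, log_two_pow]
      have : Real.log 2 < 1 := by have := Real.log_two_lt_d9; linarith
      have hi0 : (0 : ℝ) ≤ i := by positivity
      nlinarith
    have hlog0 : 0 ≤ Real.log Y := Real.log_nonneg hY1
    have h3 : Y * Real.log Y ^ r / (g i : ℝ) ^ (r + 1) ≤ Y * (i : ℝ) ^ r / Y ^ (1 + ((r : ℝ) + 1) * (ε / 2)) := by
      refine div_le_div₀ (by positivity) ?_ (by positivity) h1
      exact mul_le_mul_of_nonneg_left (pow_le_pow_left₀ hlog0 hlog r) hY0.le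
    refine h3.trans (le_of_eq ?_)
    rw [Real.rpow_add hY0, Real.rpow_one]
    have h4 : ρ ^ i = (Y ^ (((r : ℝ) + 1) * (ε / 2)))⁻¹ := by
      rw [hρ, ← Real.rpow_mul_natCast (by norm_num), hY, ← Real.rpow_neg (by positivity)]
      push_cast
      rw [← Real.rpow_natCast 2 i, ← Real.rpow_mul (by norm_num)]
      congr 1
      ring
    rw [h4]
    field_simp
  filter_upwards [hev] with ω hω
  obtain ⟨N, hN⟩ := eventually_atTop.1 hω
  have hbig : ∀ᶠ X : ℕ in atTop, 2 * r * (2 : ℝ) ^ θ + 2 * r + 1 ≤ (X : ℝ) ^ (ε / 2) :=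
    ((tendsto_rpow_atTop (by positivity : (0 : ℝ) < ε / 2)).comp tendsto_natCast_atTop_atTop).eventually_ge_atTop _
  filter_upwards [exists_dyadic N, hbig, eventually_ge_atTop 1] with X hX hXb hX1
  obtain ⟨i, hi, hiX, hXi⟩ := hX
  intro hgap
  have hX1' : (1 : ℝ) ≤ X := by exact_mod_cast hX1
  have hX0 : (0 : ℝ) < X := by linarith
  apply hN (i + 1) (by omega)
  refine hgap.mono hXi.le ?_
  have h5 : (g (i + 1) : ℝ) ≤ (2 : ℝ) ^ θ * (X : ℝ) ^ θ + 1 := by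
    have h6 : (g (i + 1) : ℝ) < ((2 ^ (i + 1) : ℕ) : ℝ) ^ θ + 1 := Nat.ceil_lt_add_one (by positivity)
    have h7 : ((2 ^ (i + 1) : ℕ) : ℝ) ^ θ ≤ (2 * (X : ℝ)) ^ θ := by
      refine Real.rpow_le_rpow (by positivity) ?_ hθ0.le
      have : 2 ^ (i + 1) ≤ 2 * X := by rw [pow_succ]; omega
      exact_mod_cast this
    rw [Real.mul_rpow (by norm_num) hX0.le] at h7
    linarith
  have h8 : (X : ℝ) ^ (1 / ((r : ℝ) + 1) + ε) = (X : ℝ) ^ θ * (X : ℝ) ^ (ε / 2) := by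
    rw [← Real.rpow_add hX0]
    congr 1
    rw [hθ]
    ring
  have h9 : (1 : ℝ) ≤ (X : ℝ) ^ θ := Real.one_le_rpow hX1' hθ0.le
  rw [h8]
  have h10 : (X : ℝ) ^ θ * (2 * r * (2 : ℝ) ^ θ + 2 * r + 1) ≤ (X : ℝ) ^ θ * (X : ℝ) ^ (ε / 2) :=
    mul_le_mul_of_nonneg_left hXb (by positivity)
  refine le_trans ?_ h10
  have hr1 : (0 : ℝ) ≤ r := by positivity
  have h11 : 2 * (r : ℝ) * (g (i + 1) : ℝ) ≤ 2 * r * ((2 : ℝ) ^ θ * (X : ℝ) ^ θ + 1) :=
    mul_le_mul_of_nonneg_left h5 (by positivity)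
  nlinarith

end Pool.Agent.Q51.LI
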