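import Pool.Agent.Q51.LI.As

/-!
# Random sets with approximate independence of limited order
-/

namespace Pool.Agent.Q51.LI

open Finset MeasureTheory Filter

lemma sum_el_le (x : ℕ → ℝ) (S : Finset ℕ) (hx : ∀ i ∈ S, 0 ≤ x i) (K : ℕ) :
    ∑ j ∈ range (K + 1), el x S j ≤ ∏ i ∈ S, (1 + x i) := by
  have hB : ∀ S : Finset ℕ, ∀ K : ℕ, ∑ j ∈ range (K + 1), el x S j = B (fun i => -x i) S K := by
    intro S K
    unfold B
    refine sum_congr rfl fun j _ => ?_
    have : el (fun i => -x i) S j = (-1) ^ j * el x S j := by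
      unfold el
      rw [mul_sum]
      refine sum_congr rfl fun T hT => ?_
      rw [prod_neg, (mem_powersetCard.1 hT).2]
    rw [this, ← mul_assoc, ← mul_pow]
    simp
  rw [hB]
  induction S using Finset.induction_on generalizing K with
  | empty => rw [B_empty]; simp
  | insert i S hi ih =>
      have hS : ∀ i ∈ S, 0 ≤ x i := fun j hj => hx j (mem_insert_of_mem hj)
      have hxi := hx i (mem_insert_self _ _)
      rw [prod_insert hi]
      cases K with
      | zero =>
          rw [B_zero]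
          have h1 : 1 ≤ ∏ i ∈ S, (1 + x i) := by
            have := ih hS 0
            rwa [B_zero] at this
          nlinarith
      | succ K =>
          rw [B_insert _ hi]
          have h1 := ih hS (K + 1)
          have h2 := ih hS K
          nlinarith

variable {Ω : Type} [MeasurableSpace Ω]

/-- The events `E n`, `3 ≤ n ≤ X`, are measurable, and for every set `S` of at most `k` integers `n` with `3 ≤ n ≤ X` the
probability that all `E n`, `n ∈ S`, occur is `∏ 1 / log n`, up to the relative error `η`. -/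
def IsNearlyRandomSet (P : Measure Ω) (k X : ℕ) (η : ℝ) (E : ℕ → Set Ω) : Prop :=
  (∀ n ∈ Icc 3 X, MeasurableSet (E n)) ∧
    ∀ S : Finset ℕ, S ⊆ Icc 3 X → S.card ≤ k →
      |P.real (⋂ n ∈ S, E n) - ∏ n ∈ S, 1 / Real.log n| ≤ η * ∏ n ∈ S, 1 / Real.log n

variable {P : Measure Ω} {k X : ℕ} {η : ℝ} {E : ℕ → Set Ω}

lemma nmeas_inter (hE : IsNearlyRandomSet P k X η E) {T : Finset ℕ} (hT : T ⊆ Icc 3 X) :
    MeasurableSet (⋂ n ∈ T, E n) :=
  Finset.measurableSet_biInter T fun n hn => hE.1 n (hT hn)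

lemma nmeas_void (hE : IsNearlyRandomSet P k X η E) {T : Finset ℕ} (hT : T ⊆ Icc 3 X) :
    MeasurableSet (void E T) := by
  have : void E T = ⋂ n ∈ T, (E n)ᶜ := by
    ext ω
    simp [void]
  rw [this]
  exact Finset.measurableSet_biInter T fun n hn => (hE.1 n (hT hn)).compl

lemma nint_el [IsProbabilityMeasure P] (hE : IsNearlyRandomSet P k X η E) {S : Finset ℕ} (hS : S ⊆ Icc 3 X) (j : ℕ) :
    Integrable (fun ω => el (ind E ω) S j) P := by
  unfold el
  refine integrable_finsetSum _ fun T hT => ?_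
  have hT' : T ⊆ Icc 3 X := (mem_powersetCard.1 hT).1.trans hS
  simp_rw [prod_ind]
  exact (integrable_const (1 : ℝ)).indicator (nmeas_inter hE hT')

lemma near_el [IsProbabilityMeasure P] (hE : IsNearlyRandomSet P k X η E) {S : Finset ℕ} (hS : S ⊆ Icc 3 X) {j : ℕ}
    (hj : j ≤ k) : |∫ ω, el (ind E ω) S j ∂P - el pr S j| ≤ η * el pr S j := by
  have h1 : ∫ ω, el (ind E ω) S j ∂P = ∑ T ∈ powersetCard j S, P.real (⋂ n ∈ T, E n) := by
    unfold el
    rw [integral_finsetSum]
    · refine sum_congr rfl fun T hT => ?_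
      have hT' : T ⊆ Icc 3 X := (mem_powersetCard.1 hT).1.trans hS
      simp_rw [prod_ind]
      rw [integral_indicator (nmeas_inter hE hT'), setIntegral_const, smul_eq_mul, mul_one]
    · intro T hT
      have hT' : T ⊆ Icc 3 X := (mem_powersetCard.1 hT).1.trans hS
      simp_rw [prod_ind]
      exact (integrable_const (1 : ℝ)).indicator (nmeas_inter hE hT')
  rw [h1]
  unfold el
  rw [← sum_sub_distrib, mul_sum]
  refine (abs_sum_le_sum_abs _ _).trans (sum_le_sum fun T hT => ?_)
  exact hE.2 T ((mem_powersetCard.1 hT).1.trans hS) (by rw [(mem_powersetCard.1 hT).2]; exact hj)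

/-- The probability that the random set avoids `S`, with approximate independence. -/
theorem nvoid_near [IsProbabilityMeasure P] (hk : 1 ≤ k) (h0 : 0 ≤ η) (h1 : η ≤ 1) (hE : IsNearlyRandomSet P k X η E)
    {S : Finset ℕ} (hS : S ⊆ Icc 3 X) (t : ℝ) (ht : 0 < t) :
    |P.real (void E S) - ∏ n ∈ S, (1 - pr n)| ≤
      3 * (Real.exp (t * ∑ n ∈ S, pr n) / t ^ k) + η * Real.exp (∑ n ∈ S, pr n) := by
  have hpr : ∀ n ∈ S, 0 ≤ pr n ∧ pr n ≤ 1 := fun n hn => by
    have := pr_mem (mem_Icc.1 (hS hn)).1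
    exact ⟨this.1.le, this.2.le⟩
  obtain ⟨K, rfl⟩ : ∃ K, k = K + 1 := ⟨k - 1, by omega⟩
  have hb1 := B_near pr S hpr K
  have iB : Integrable (fun ω => B (ind E ω) S K) P := by
    unfold B
    exact integrable_finsetSum _ fun j _ => (nint_el hE hS j).const_mul _
  have e1 : P.real (void E S) = ∫ ω, ∏ n ∈ S, (1 - ind E ω n) ∂P := by
    simp_rw [prod_one_sub_ind]
    rw [integral_indicator (nmeas_void hE hS), setIntegral_const, smul_eq_mul, mul_one]
  have i1 : Integrable (fun ω => ∏ n ∈ S, (1 - ind E ω n)) P := by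
    simp_rw [prod_one_sub_ind]
    exact (integrable_const (1 : ℝ)).indicator (nmeas_void hE hS)
  have hb2 : |∫ ω, B (ind E ω) S K ∂P - P.real (void E S)| ≤ 2 * el pr S (K + 1) := by
    rw [e1, ← integral_sub iB i1]
    have h2 : |∫ ω, (B (ind E ω) S K - ∏ n ∈ S, (1 - ind E ω n)) ∂P| ≤ ∫ ω, el (ind E ω) S (K + 1) ∂P := by
      refine (abs_integral_le_integral_abs).trans (integral_mono_of_nonneg ?_ (nint_el hE hS _) ?_)
      · exact Filter.Eventually.of_forall fun ω => abs_nonneg _
      · exact Filter.Eventually.of_forall fun ω => B_near (ind E ω) S (fun n _ => ind_mem E ω n) K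
    have h3 := (abs_le.1 (near_el hE hS (j := K + 1) le_rfl)).2
    have h4 := el_nonneg pr S (fun n hn => (hpr n hn).1) (K + 1)
    nlinarith
  have hb3 : |∫ ω, B (ind E ω) S K ∂P - B pr S K| ≤ η * Real.exp (∑ n ∈ S, pr n) := by
    have e2 : ∫ ω, B (ind E ω) S K ∂P = ∑ j ∈ range (K + 1), (-1) ^ j * ∫ ω, el (ind E ω) S j ∂P := by
      unfold B
      rw [integral_finsetSum _ fun j _ => (nint_el hE hS j).const_mul _]
      exact sum_congr rfl fun j _ => integral_const_mul _ _
    have e3 : ∫ ω, B (ind E ω) S K ∂P - B pr S K =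
        ∑ j ∈ range (K + 1), (-1) ^ j * (∫ ω, el (ind E ω) S j ∂P - el pr S j) := by
      rw [e2]
      unfold B
      rw [← sum_sub_distrib]
      exact sum_congr rfl fun j _ => by ring
    rw [e3]
    refine (abs_sum_le_sum_abs _ _).trans ?_
    have h5 : ∀ j ∈ range (K + 1), |(-1) ^ j * (∫ ω, el (ind E ω) S j ∂P - el pr S j)| ≤ η * el pr S j := by
      intro j hj
      rw [abs_mul, abs_pow, abs_neg, abs_one, one_pow, one_mul]
      exact near_el hE hS (by have := mem_range.1 hj; omega)
    refine (sum_le_sum h5).trans ?_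
    rw [← mul_sum]
    refine mul_le_mul_of_nonneg_left ?_ h0
    refine (sum_el_le pr S (fun n hn => (hpr n hn).1) K).trans ?_
    rw [Real.exp_sum]
    refine prod_le_prod (fun n hn => by linarith [(hpr n hn).1]) fun n _ => ?_
    linarith [Real.add_one_le_exp (pr n)]
  have h6 := el_le pr S (fun n hn => (hpr n hn).1) (K + 1) t ht
  have a1 := abs_le.1 hb1
  have a2 := abs_le.1 hb2
  have a3 := abs_le.1 hb3
  rw [abs_le]
  constructor <;> linarith [a1.1, a1.2, a2.1, a2.2, a3.1, a3.2]

/-- **Second moments**, sharper on the diagonal. -/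
theorem second_moment' [IsProbabilityMeasure P] (N : ℕ) (V : ℕ → Set Ω) (hV : ∀ j, MeasurableSet (V j)) (Q : ℕ → ℝ)
    (hQ : ∀ j < N, 0 ≤ Q j ∧ Q j ≤ 1) (ε : ℝ) (h1 : ∀ j < N, |P.real (V j) - Q j| ≤ ε)
    (h2 : ∀ i < N, ∀ j < N, i ≠ j → |P.real (V i ∩ V j) - Q i * Q j| ≤ ε) :
    P.real {ω | ∀ j < N, ω ∉ V j} * (∑ j ∈ range N, Q j) ^ 2 ≤ 2 * (∑ j ∈ range N, Q j) + 3 * ε * N ^ 2 := by
  classical
  set f : ℕ → Ω → ℝ := fun j ω => (V j).indicator (fun _ => (1 : ℝ)) ω - Q j with hf
  have hint : ∀ j, Integrable ((V j).indicator (fun _ => (1 : ℝ))) P := fun j => (integrable_const (1 : ℝ)).indicator (hV j)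
  have hpair : ∀ i j, f i * f j = fun ω => (V i ∩ V j).indicator (fun _ => (1 : ℝ)) ω -
      Q i * (V j).indicator (fun _ => (1 : ℝ)) ω - Q j * (V i).indicator (fun _ => (1 : ℝ)) ω + Q i * Q j := by
    intro i j
    funext ω
    simp only [hf, Pi.mul_apply, Set.indicator_apply, Set.mem_inter_iff]
    by_cases hi : ω ∈ V i <;> by_cases hj : ω ∈ V j <;> simp [hi, hj] <;> ring
  have hintp : ∀ i j, Integrable (f i * f j) P := by
    intro i j
    rw [hpair]
    exact (((((integrable_const (1 : ℝ)).indicator ((hV i).inter (hV j))).sub ((hint j).const_mul _)).sub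
      ((hint i).const_mul _)).add (integrable_const _))
  have hval : ∀ i j, ∫ ω, (f i * f j) ω ∂P = P.real (V i ∩ V j) - Q i * P.real (V j) - Q j * P.real (V i) + Q i * Q j := by
    intro i j
    rw [hpair]
    have a1 : ∀ A : Set Ω, MeasurableSet A → ∫ ω, A.indicator (fun _ => (1 : ℝ)) ω ∂P = P.real A := by
      intro A hA
      rw [integral_indicator hA, setIntegral_const, smul_eq_mul, mul_one]
    rw [integral_add, integral_sub, integral_sub, integral_const_mul, integral_const_mul, a1 _ ((hV i).inter (hV j)),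
      a1 _ (hV j), a1 _ (hV i), integral_const]
    · simp
    · exact (integrable_const (1 : ℝ)).indicator ((hV i).inter (hV j))
    · exact (hint j).const_mul _
    · exact ((integrable_const (1 : ℝ)).indicator ((hV i).inter (hV j))).sub ((hint j).const_mul _)
    · exact (hint i).const_mul _
    · exact ((((integrable_const (1 : ℝ)).indicator ((hV i).inter (hV j))).sub ((hint j).const_mul _)).sub
        ((hint i).const_mul _))
    · exact integrable_const _
  have hsq : (fun ω => (∑ j ∈ range N, f j ω) ^ 2) = fun ω => ∑ i ∈ range N, ∑ j ∈ range N, (f i * f j) ω := by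
    funext ω
    rw [sq, sum_mul_sum]
    rfl
  have hE2 : ∫ ω, (∑ j ∈ range N, f j ω) ^ 2 ∂P ≤ 2 * (∑ j ∈ range N, Q j) + 3 * ε * N ^ 2 := by
    rw [hsq, integral_finsetSum _ fun i _ => integrable_finsetSum _ fun j _ => hintp i j]
    have hb : ∀ i ∈ range N, ∫ ω, ∑ j ∈ range N, (f i * f j) ω ∂P ≤ 2 * Q i + N * (3 * ε) := by
      intro i hi
      rw [integral_finsetSum _ fun j _ => hintp i j]
      have hi' := mem_range.1 hi
      have hε : 0 ≤ ε := le_trans (abs_nonneg _) (h1 i hi')
      have hc : ∀ j ∈ range N, ∫ ω, (f i * f j) ω ∂P ≤ (if j = i then 2 * Q i else 0) + 3 * ε := by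
        intro j hj
        have hj' := mem_range.1 hj
        rw [hval]
        have b1 := abs_le.1 (h1 i hi')
        have b2 := abs_le.1 (h1 j hj')
        have q1 := hQ i hi'
        have q2 := hQ j hj'
        split_ifs with hij
        · subst hij
          rw [Set.inter_self]
          have p0 : 0 ≤ P.real (V j) := measureReal_nonneg
          nlinarith [mul_nonneg q1.1 p0, mul_nonneg q1.1 (sub_nonneg.2 q1.2)]
        · have b3 := abs_le.1 (h2 i hi' j hj' (fun h => hij h.symm))
          have m1 : Q i * (Q j - P.real (V j)) ≤ 1 * ε := by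
            refine (mul_le_mul_of_nonneg_left (by linarith : Q j - P.real (V j) ≤ ε) q1.1).trans ?_
            exact mul_le_mul_of_nonneg_right q1.2 hε
          have m2 : Q j * (Q i - P.real (V i)) ≤ 1 * ε := by
            refine (mul_le_mul_of_nonneg_left (by linarith : Q i - P.real (V i) ≤ ε) q2.1).trans ?_
            exact mul_le_mul_of_nonneg_right q2.2 hε
          linarith [b3.2]
      refine (sum_le_sum hc).trans ?_
      rw [sum_add_distrib, sum_const, card_range, nsmul_eq_mul]
      have : ∑ j ∈ range N, (if j = i then 2 * Q i else 0) = 2 * Q i := by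
        rw [sum_ite_eq' (range N) i, if_pos hi]
      linarith
    refine (sum_le_sum hb).trans ?_
    rw [sum_add_distrib, ← mul_sum, sum_const, card_range, nsmul_eq_mul]
    apply le_of_eq
    ring
  have hm : MeasurableSet {ω | ∀ j < N, ω ∉ V j} := by
    have : {ω | ∀ j < N, ω ∉ V j} = ⋂ j ∈ range N, (V j)ᶜ := by
      ext ω
      simp
    rw [this]
    exact Finset.measurableSet_biInter _ fun j _ => (hV j).compl
  have hlow : P.real {ω | ∀ j < N, ω ∉ V j} * (∑ j ∈ range N, Q j) ^ 2 ≤ ∫ ω, (∑ j ∈ range N, f j ω) ^ 2 ∂P := by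
    have e : P.real {ω | ∀ j < N, ω ∉ V j} * (∑ j ∈ range N, Q j) ^ 2 =
        ∫ ω, ({ω | ∀ j < N, ω ∉ V j}).indicator (fun _ => (∑ j ∈ range N, Q j) ^ 2) ω ∂P := by
      rw [integral_indicator hm, setIntegral_const, smul_eq_mul]
    rw [e]
    refine integral_mono ((integrable_const _).indicator hm) ?_ ?_
    · rw [hsq]
      exact integrable_finsetSum _ fun i _ => integrable_finsetSum _ fun j _ => hintp i j
    · intro ω
      by_cases h : ω ∈ {ω | ∀ j < N, ω ∉ V j}
      · rw [Set.indicator_of_mem h]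
        have : ∑ j ∈ range N, f j ω = - ∑ j ∈ range N, Q j := by
          rw [← sum_neg_distrib]
          refine sum_congr rfl fun j hj => ?_
          simp only [hf]
          rw [Set.indicator_of_notMem (h j (mem_range.1 hj))]
          ring
        show _ ≤ (∑ j ∈ range N, f j ω) ^ 2
        rw [this, neg_sq]
      · rw [Set.indicator_of_notMem h]
        exact sq_nonneg _
  exact hlow.trans hE2

end Pool.Agent.Q51.LI
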