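import Pool.Agent.Q51.LI.Near

/-!
# The constant in Cramér's model with approximate independence of limited order
-/

namespace Pool.Agent.Q51.LI

open Finset MeasureTheory Filter

variable {Ω : Type} [MeasurableSpace Ω] {P : Measure Ω} {k X : ℕ} {η : ℝ} {E : ℕ → Set Ω}

lemma nvoid_le [IsProbabilityMeasure P] (hk : 1 ≤ k) (h0 : 0 ≤ η) (h1 : η ≤ 1) (hE : IsNearlyRandomSet P k X η E)
    {S : Finset ℕ} (hS : S ⊆ Icc 3 X) (T : ℝ) (hT0 : 0 ≤ T) (hT : T ≤ ∑ n ∈ S, pr n) :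
    P.real (void E S) ≤ Real.exp (-T) + 3 * Real.exp (2.72 * (T + 1) - k) + η * Real.exp (T + 1) := by
  obtain ⟨S', hS', h2, h3⟩ := exists_part pr S (fun n hn => by
    have := pr_mem (mem_Icc.1 (hS hn)).1
    exact ⟨this.1.le, this.2.le⟩) T hT hT0
  have h4 : P.real (void E S) ≤ P.real (void E S') := by
    refine measureReal_mono ?_ (measure_ne_top _ _)
    intro ω hω n hn
    exact hω n (hS' hn)
  have h5 := nvoid_near hk h0 h1 hE (hS'.trans hS) (Real.exp 1) (Real.exp_pos 1)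
  have h6 : ∏ n ∈ S', (1 - pr n) ≤ Real.exp (-T) := by
    refine le_trans ?_ (Real.exp_le_exp.2 (neg_le_neg h2))
    rw [← sum_neg_distrib, Real.exp_sum]
    refine prod_le_prod (fun n hn => ?_) fun n hn => ?_
    · have := (pr_mem (mem_Icc.1 (hS (hS' hn))).1).2
      linarith
    · have := Real.add_one_le_exp (-pr n)
      linarith
  have he : Real.exp 1 < 2.7182818286 := Real.exp_one_lt_d9
  have h7 : Real.exp (Real.exp 1 * ∑ n ∈ S', pr n) / Real.exp 1 ^ k ≤ Real.exp (2.72 * (T + 1) - k) := by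
    rw [← Real.exp_nat_mul, ← Real.exp_sub]
    apply Real.exp_le_exp.2
    have h8 : Real.exp 1 * ∑ n ∈ S', pr n ≤ 2.72 * (T + 1) :=
      mul_le_mul (by linarith) h3 (by linarith) (by norm_num)
    rw [mul_one]
    linarith
  have h9 : η * Real.exp (∑ n ∈ S', pr n) ≤ η * Real.exp (T + 1) :=
    mul_le_mul_of_nonneg_left (Real.exp_le_exp.2 h3) h0
  have := (abs_le.1 h5).2
  linarith

lemma sum_pr_ge {S : Finset ℕ} (hS : S ⊆ Icc 3 X) (hX : 3 ≤ X) : (S.card : ℝ) / Real.log X ≤ ∑ n ∈ S, pr n := by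
  have h1 : ∑ n ∈ S, (1 / Real.log X) ≤ ∑ n ∈ S, pr n := sum_le_sum fun n hn => pr_ge (hS hn)
  rw [sum_const, nsmul_eq_mul, mul_one_div] at h1
  exact h1

lemma big_exp {δ L : ℝ} (hδ : 0 < δ) (hL : 10 ^ 11 / δ ^ 3 ≤ L) : 10 ^ 8 * L ^ 2 ≤ Real.exp (δ * L / 4) := by
  have hL0 : 0 < L := lt_of_lt_of_le (by positivity) hL
  have h1 := Real.pow_div_factorial_le_exp (δ * L / 4) (by positivity) 3
  refine le_trans ?_ h1
  have : (Nat.factorial 3 : ℝ) = 6 := by norm_num [Nat.factorial]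
  rw [this]
  have h2 : (δ * L / 4) ^ 3 / 6 = L ^ 2 * (δ ^ 3 * L / 384) := by ring
  rw [h2]
  have h3 : 10 ^ 8 ≤ δ ^ 3 * L / 384 := by
    rw [div_le_iff₀ (by positivity)] at hL
    nlinarith
  have h4 : (0 : ℝ) < L ^ 2 := by positivity
  nlinarith

lemma exp_five_lt : Real.exp 5 < 149 := by
  have he : Real.exp 1 < 2.7182818286 := Real.exp_one_lt_d9
  have e : Real.exp 5 = Real.exp 1 ^ 5 := by rw [← Real.exp_nat_mul]; norm_num
  rw [e]
  calc Real.exp 1 ^ 5 < (2.7182818286 : ℝ) ^ 5 := pow_lt_pow_left₀ he (Real.exp_pos 1).le (by norm_num)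
    _ < 149 := by norm_num

/-- **The upper bound with the constant.** -/
theorem sharp_upper [IsProbabilityMeasure P] {δ : ℝ} (hδ : 0 < δ) (hδ' : δ ≤ 1 / 4) (hL0 : 10 ^ 11 / δ ^ 3 ≤ Real.log X)
    (hk : 15 * Real.log X ≤ k) (h0 : 0 ≤ η) (h1 : η ≤ Real.exp (-(4 * Real.log X))) (hE : IsNearlyRandomSet P k X η E) :
    P.real {ω | HasGap E X ((1 + δ) * Real.log X ^ 2) ω} ≤ Real.exp (-(δ * Real.log X / 2)) := by
  set L := Real.log X with hLdef
  have hbig := big_exp hδ hL0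
  have hL1 : 10 ^ 11 ≤ L := by
    refine le_trans ?_ hL0
    rw [le_div_iff₀ (by positivity)]
    have : δ ^ 3 ≤ 1 := pow_le_one₀ hδ.le (by linarith)
    nlinarith
  have hX0' : X ≠ 0 := by
    rintro rfl
    simp at hLdef
    linarith
  have hX0 : (0 : ℝ) < X := by exact_mod_cast Nat.pos_of_ne_zero hX0'
  have hXe : Real.exp L = X := Real.exp_log hX0
  have hX3 : 3 ≤ X := by
    have : (3 : ℝ) ≤ X := by
      rw [← hXe]
      have := Real.add_one_le_exp L
      linarith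
    exact_mod_cast this
  have hk1 : 1 ≤ k := by
    have : (0 : ℝ) < k := by linarith
    exact_mod_cast this
  have hη1 : η ≤ 1 := h1.trans (by rw [Real.exp_le_one_iff]; linarith)
  set h := ⌈(1 + δ) * L ^ 2⌉₊ - 1 with hh
  have hc1 : (1 + δ) * L ^ 2 ≤ (⌈(1 + δ) * L ^ 2⌉₊ : ℝ) := Nat.le_ceil _
  have hcpos : 1 ≤ ⌈(1 + δ) * L ^ 2⌉₊ := Nat.one_le_ceil_iff.2 (by positivity)
  have hh1 : (1 + δ) * L ^ 2 - 1 ≤ h := by
    rw [hh, Nat.cast_sub hcpos]
    push_cast
    linarith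
  have hsub : {ω | HasGap E X ((1 + δ) * L ^ 2) ω} ⊆
      ⋃ a ∈ (Icc 3 X).filter (fun a => a + h ≤ X), void E (Ioc a (a + h)) := by
    rintro ω ⟨a, b, ha, hab, hb, -, -, hc, hH⟩
    have hab' : a + h < b := by
      have h2 : ⌈(1 + δ) * L ^ 2⌉₊ ≤ b - a := by
        rw [Nat.ceil_le, Nat.cast_sub hab.le]
        exact hH
      omega
    rw [Set.mem_iUnion₂]
    refine ⟨a, ?_, ?_⟩
    · rw [mem_filter, mem_Icc]
      omega
    · intro n hn
      rw [mem_Ioc] at hn
      exact hc n hn.1 (by omega)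
  have hone : ∀ a ∈ (Icc 3 X).filter (fun a => a + h ≤ X), P.real (void E (Ioc a (a + h))) ≤
      7 * Real.exp (-((1 + δ) * L)) := by
    intro a ha
    rw [mem_filter, mem_Icc] at ha
    have hS : Ioc a (a + h) ⊆ Icc 3 X := by
      intro n hn
      rw [mem_Ioc] at hn
      rw [mem_Icc]
      omega
    have hμ : (1 + δ) * L - 1 ≤ ∑ n ∈ Ioc a (a + h), pr n := by
      refine le_trans ?_ (sum_pr_ge hS hX3)
      rw [Nat.card_Ioc, show a + h - a = h by omega, le_div_iff₀ (by linarith)]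
      nlinarith
    have h2 := nvoid_le hk1 h0 hη1 hE hS ((1 + δ) * L - 1) (by nlinarith) hμ
    have t1 : Real.exp (-((1 + δ) * L - 1)) = Real.exp 1 * Real.exp (-((1 + δ) * L)) := by
      rw [← Real.exp_add]; congr 1; ring
    have t2 : Real.exp (2.72 * ((1 + δ) * L - 1 + 1) - k) ≤ Real.exp (-((1 + δ) * L)) := by
      apply Real.exp_le_exp.2
      nlinarith
    have t3 : η * Real.exp ((1 + δ) * L - 1 + 1) ≤ Real.exp (-((1 + δ) * L)) := by
      calc η * Real.exp ((1 + δ) * L - 1 + 1) ≤ Real.exp (-(4 * L)) * Real.exp ((1 + δ) * L - 1 + 1) :=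
            mul_le_mul_of_nonneg_right h1 (Real.exp_pos _).le
        _ = Real.exp (-(4 * L) + ((1 + δ) * L - 1 + 1)) := by rw [← Real.exp_add]
        _ ≤ Real.exp (-((1 + δ) * L)) := Real.exp_le_exp.2 (by nlinarith)
    have he : Real.exp 1 < 2.7182818286 := Real.exp_one_lt_d9
    rw [t1] at h2
    have hp := Real.exp_pos (-((1 + δ) * L))
    nlinarith
  calc P.real {ω | HasGap E X ((1 + δ) * L ^ 2) ω}
      ≤ P.real (⋃ a ∈ (Icc 3 X).filter (fun a => a + h ≤ X), void E (Ioc a (a + h))) :=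
        measureReal_mono hsub (measure_ne_top _ _)
    _ ≤ ∑ a ∈ (Icc 3 X).filter (fun a => a + h ≤ X), P.real (void E (Ioc a (a + h))) :=
        measureReal_biUnion_finset_le _ _
    _ ≤ ∑ a ∈ (Icc 3 X).filter (fun a => a + h ≤ X), 7 * Real.exp (-((1 + δ) * L)) := sum_le_sum hone
    _ ≤ X * (7 * Real.exp (-((1 + δ) * L))) := by
        rw [sum_const, nsmul_eq_mul]
        refine mul_le_mul_of_nonneg_right ?_ (by positivity)
        have h3 : ((Icc 3 X).filter (fun a => a + h ≤ X)).card ≤ (Icc 3 X).card := card_filter_le _ _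
        rw [Nat.card_Icc] at h3
        have : ((Icc 3 X).filter (fun a => a + h ≤ X)).card ≤ X := by omega
        exact_mod_cast this
    _ ≤ Real.exp (-(δ * L / 2)) := by
        have e1 : (X : ℝ) * (7 * Real.exp (-((1 + δ) * L))) = 7 * Real.exp (-(δ * L / 2)) * Real.exp (-(δ * L / 2)) := by
          rw [← hXe, mul_assoc, ← Real.exp_add, mul_left_comm, ← Real.exp_add]
          congr 2
          ring
        rw [e1]
        have e2 : 7 * Real.exp (-(δ * L / 2)) ≤ 1 := by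
          rw [Real.exp_neg, ← div_eq_mul_inv, div_le_one (Real.exp_pos _)]
          have : Real.exp (δ * L / 4) ≤ Real.exp (δ * L / 2) := Real.exp_le_exp.2 (by nlinarith)
          nlinarith
        have := Real.exp_pos (-(δ * L / 2))
        nlinarith

lemma one_sub_ge' {p : ℝ} (h0 : 0 ≤ p) (h1 : p ≤ 1 / 2) : Real.exp (-(p + 2 * p ^ 2)) ≤ 1 - p := by
  have h := Real.one_sub_inv_le_log_of_pos (x := 1 - p) (by linarith)
  have h2 : -(p + 2 * p ^ 2) ≤ Real.log (1 - p) := by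
    refine le_trans ?_ h
    have : 1 - (1 - p)⁻¹ = -(p / (1 - p)) := by
      have : (1 - p) ≠ 0 := by linarith
      field_simp
      ring
    rw [this]
    apply neg_le_neg
    rw [div_le_iff₀ (by linarith)]
    nlinarith [mul_nonneg h0 h0, mul_nonneg (mul_nonneg h0 h0) (by linarith : (0 : ℝ) ≤ 1 - 2 * p)]
  calc Real.exp (-(p + 2 * p ^ 2)) ≤ Real.exp (Real.log (1 - p)) := Real.exp_le_exp.2 h2
    _ = 1 - p := Real.exp_log (by linarith)

end Pool.Agent.Q51.LI
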