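import Pool.Agent.Q51.LI.SharpLow

/-!
# Almost sure asymptotics of the largest gap
-/

namespace Pool.Agent.Q51.LI

open Finset MeasureTheory Filter

variable {Ω : Type} [MeasurableSpace Ω]

/-- `a < b` are consecutive elements of the random set. -/
def Consecutive (E : ℕ → Set Ω) (ω : Ω) (a b : ℕ) : Prop :=
  3 ≤ a ∧ a < b ∧ ω ∈ E a ∧ ω ∈ E b ∧ ∀ c, a < c → c < b → ω ∉ E c

lemma nat_ge (X : ℕ) (hX : 3 ≤ X) : (X : ℝ) ^ (-4 : ℝ) = Real.exp (-(4 * Real.log X)) := by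
  have hX0 : (0 : ℝ) < X := by positivity
  rw [Real.rpow_def_of_pos hX0]
  congr 1
  ring

/-- The asymptotics for one `δ`. -/
theorem ae_sharp_one {P : Measure Ω} [IsProbabilityMeasure P] (E : ℕ → Set Ω)
    (h : ∀ᶠ X : ℕ in atTop, IsNearlyRandomSet P ⌈15 * Real.log X⌉₊ X ((X : ℝ) ^ (-4 : ℝ)) E) (δ : ℝ) (hδ : 0 < δ)
    (hδ' : δ ≤ 1 / 4) :
    ∀ᵐ ω ∂P, ∀ᶠ X : ℕ in atTop,
      HasGap E X ((1 - 2 * δ) * Real.log X ^ 2) ω ∧ ¬ HasGap E X ((1 + 4 * δ) * Real.log X ^ 2) ω := by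
  obtain ⟨X₁, hX₁⟩ := eventually_atTop.1 h
  have hl2 : (0.69 : ℝ) < Real.log 2 := by have := Real.log_two_gt_d9; linarith
  have hl2' : Real.log 2 < 0.7 := by have := Real.log_two_lt_d9; linarith
  have hpow : ∀ i : ℕ, i ≤ 2 ^ i := fun i => (Nat.lt_two_pow_self).le
  obtain ⟨N₀, hN₀⟩ := exists_nat_ge (2 * (10 ^ 11 / δ ^ 3))
  have hlarge : ∀ i : ℕ, max (max X₁ N₀) 2 ≤ i → X₁ ≤ 2 ^ i ∧ 3 ≤ 2 ^ i ∧ 10 ^ 11 / δ ^ 3 ≤ Real.log ((2 ^ i : ℕ) : ℝ) := by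
    intro i hi
    have h1 : X₁ ≤ i := ((le_max_left _ _).trans (le_max_left _ _)).trans hi
    have h2 : N₀ ≤ i := ((le_max_right _ _).trans (le_max_left _ _)).trans hi
    have h3 : 2 ≤ i := (le_max_right _ _).trans hi
    refine ⟨h1.trans (hpow i), ?_, ?_⟩
    · have : 2 ^ 2 ≤ 2 ^ i := Nat.pow_le_pow_right (by norm_num) h3
      omega
    · rw [log_two_pow]
      have h4 : (N₀ : ℝ) ≤ i := by exact_mod_cast h2
      have h5 : (0 : ℝ) ≤ 10 ^ 11 / δ ^ 3 := by positivity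
      nlinarith
  have hgeo : Summable fun i : ℕ => (Real.exp (-(δ * Real.log 2 / 2))) ^ i :=
    summable_geometric_of_lt_one (Real.exp_pos _).le (by
      rw [Real.exp_lt_one_iff]
      have : 0 < δ * Real.log 2 / 2 := by positivity
      linarith)
  have hval : ∀ i : ℕ, Real.exp (-(δ * Real.log ((2 ^ i : ℕ) : ℝ) / 2)) = (Real.exp (-(δ * Real.log 2 / 2))) ^ i := by
    intro i
    rw [log_two_pow, ← Real.exp_nat_mul]
    congr 1
    ring
  have hlow : ∀ᵐ ω ∂P, ∀ᶠ i : ℕ in atTop, ω ∉ {ω | ¬ HasGap E (2 ^ i) ((1 - δ) * Real.log ((2 ^ i : ℕ) : ℝ) ^ 2) ω} := by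
    refine ae_eventually _ _ hgeo (max (max X₁ N₀) 2) fun i hi => ?_
    obtain ⟨g1, g2, g3⟩ := hlarge i hi
    rw [← hval i]
    have hE := hX₁ _ g1
    rw [nat_ge _ g2] at hE
    exact sharp_lower hδ hδ' g3 (Nat.le_ceil _) (Real.exp_pos _).le le_rfl hE
  have hupp : ∀ᵐ ω ∂P, ∀ᶠ i : ℕ in atTop, ω ∉ {ω | HasGap E (2 ^ i) ((1 + δ) * Real.log ((2 ^ i : ℕ) : ℝ) ^ 2) ω} := by
    refine ae_eventually _ _ hgeo (max (max X₁ N₀) 2) fun i hi => ?_
    obtain ⟨g1, g2, g3⟩ := hlarge i hi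
    rw [← hval i]
    have hE := hX₁ _ g1
    rw [nat_ge _ g2] at hE
    exact sharp_upper hδ hδ' g3 (Nat.le_ceil _) (Real.exp_pos _).le le_rfl hE
  filter_upwards [hlow, hupp] with ω h1 h2
  obtain ⟨N₁, hN₁⟩ := eventually_atTop.1 h1
  obtain ⟨N₂, hN₂⟩ := eventually_atTop.1 h2
  obtain ⟨N₃, hN₃⟩ := exists_nat_ge (10 / δ)
  filter_upwards [exists_dyadic (max (max N₁ N₂) (N₃ + 1))] with X hX
  obtain ⟨i, hi, hiX, hXi⟩ := hX
  have hi3 : N₃ + 1 ≤ i := (le_max_right _ _).trans hi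
  have hi3' : (10 : ℝ) / δ ≤ i := by
    have : (N₃ : ℝ) ≤ i := by exact_mod_cast (by omega : N₃ ≤ i)
    linarith
  have hiδ : 10 ≤ δ * i := by
    rw [div_le_iff₀ hδ] at hi3'
    linarith
  have hi0 : (0 : ℝ) < i := by exact_mod_cast (by omega : 0 < i)
  have hiN₁ : N₁ ≤ i := ((le_max_left _ _).trans (le_max_left _ _)).trans hi
  have hiN₂ : N₂ ≤ i := ((le_max_right _ _).trans (le_max_left _ _)).trans hi
  have hXpos : (0 : ℝ) < X := by
    have : 0 < X := lt_of_lt_of_le (by positivity) hiX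
    exact_mod_cast this
  have l1 : (i : ℝ) * Real.log 2 ≤ Real.log X := by
    rw [← log_two_pow]
    exact Real.log_le_log (by positivity) (by exact_mod_cast hiX)
  have l2 : Real.log X ≤ (i + 1) * Real.log 2 := by
    have : Real.log X ≤ Real.log ((2 ^ (i + 1) : ℕ) : ℝ) := Real.log_le_log hXpos (by exact_mod_cast hXi.le)
    rw [log_two_pow] at this
    push_cast at this
    exact this
  have l0 : 0 < Real.log X := lt_of_lt_of_le (by positivity) l1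
  constructor
  · have h3 := hN₁ i hiN₁
    simp only [not_not] at h3
    refine h3.mono hiX ?_
    rw [log_two_pow]
    -- `log X ≤ (1 + δ / 10) i log 2`
    have e : Real.log X ≤ (1 + δ / 10) * ((i : ℝ) * Real.log 2) := by nlinarith
    have e2 : Real.log X ^ 2 ≤ ((1 + δ / 10) * ((i : ℝ) * Real.log 2)) ^ 2 := pow_le_pow_left₀ l0.le e 2
    have e3 : (1 - 2 * δ) * (1 + δ / 10) ^ 2 ≤ 1 - δ := by nlinarith [mul_pos hδ hδ, mul_pos (mul_pos hδ hδ) hδ]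
    have e4 : 0 ≤ ((i : ℝ) * Real.log 2) ^ 2 := sq_nonneg _
    calc (1 - 2 * δ) * Real.log X ^ 2 ≤ (1 - 2 * δ) * ((1 + δ / 10) * ((i : ℝ) * Real.log 2)) ^ 2 :=
          mul_le_mul_of_nonneg_left e2 (by linarith)
      _ = ((1 - 2 * δ) * (1 + δ / 10) ^ 2) * ((i : ℝ) * Real.log 2) ^ 2 := by ring
      _ ≤ (1 - δ) * ((i : ℝ) * Real.log 2) ^ 2 := mul_le_mul_of_nonneg_right e3 e4
  · intro h4
    have h5 := hN₂ (i + 1) (by omega)
    apply h5
    refine h4.mono hXi.le ?_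
    rw [log_two_pow]
    push_cast
    have e : ((i : ℝ) + 1) * Real.log 2 ≤ (1 + δ / 10) * Real.log X := by nlinarith
    have e2 : (((i : ℝ) + 1) * Real.log 2) ^ 2 ≤ ((1 + δ / 10) * Real.log X) ^ 2 := pow_le_pow_left₀ (by positivity) e 2
    have e3 : (1 + δ) * (1 + δ / 10) ^ 2 ≤ 1 + 4 * δ := by nlinarith [mul_pos hδ hδ, mul_pos (mul_pos hδ hδ) hδ]
    calc (1 + δ) * (((i : ℝ) + 1) * Real.log 2) ^ 2 ≤ (1 + δ) * ((1 + δ / 10) * Real.log X) ^ 2 :=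
          mul_le_mul_of_nonneg_left e2 (by linarith)
      _ = ((1 + δ) * (1 + δ / 10) ^ 2) * Real.log X ^ 2 := by ring
      _ ≤ (1 + 4 * δ) * Real.log X ^ 2 := mul_le_mul_of_nonneg_right e3 (sq_nonneg _)

/-- **Almost surely the largest gap up to `X` is asymptotic to `(log X) ^ 2`.** -/
theorem ae_sharp {P : Measure Ω} [IsProbabilityMeasure P] (E : ℕ → Set Ω)
    (h : ∀ᶠ X : ℕ in atTop, IsNearlyRandomSet P ⌈15 * Real.log X⌉₊ X ((X : ℝ) ^ (-4 : ℝ)) E) :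
    ∀ᵐ ω ∂P, ∀ δ : ℝ, 0 < δ → ∀ᶠ X : ℕ in atTop,
      HasGap E X ((1 - δ) * Real.log X ^ 2) ω ∧ ¬ HasGap E X ((1 + δ) * Real.log X ^ 2) ω := by
  have h1 : ∀ᵐ ω ∂P, ∀ m : ℕ, ∀ᶠ X : ℕ in atTop,
      HasGap E X ((1 - 2 * (1 / (m + 4))) * Real.log X ^ 2) ω ∧ ¬ HasGap E X ((1 + 4 * (1 / (m + 4))) * Real.log X ^ 2) ω := by
    rw [ae_all_iff]
    intro m
    refine ae_sharp_one E h (1 / (m + 4)) (by positivity) ?_
    refine one_div_le_one_div_of_le (by norm_num) ?_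
    have : (0 : ℝ) ≤ m := by positivity
    linarith
  filter_upwards [h1] with ω hω δ hδ
  obtain ⟨m, hm⟩ := exists_nat_ge (4 / δ)
  have h2 : 4 * (1 / ((m : ℝ) + 4)) ≤ δ := by
    rw [mul_one_div, div_le_iff₀ (by positivity)]
    rw [div_le_iff₀ hδ] at hm
    nlinarith
  have h3 : 0 < 1 / ((m : ℝ) + 4) := by positivity
  filter_upwards [hω m] with X hX
  refine ⟨hX.1.mono le_rfl ?_, fun hg => hX.2 (hg.mono le_rfl ?_)⟩
  · exact mul_le_mul_of_nonneg_right (by linarith) (sq_nonneg _)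
  · exact mul_le_mul_of_nonneg_right (by linarith) (sq_nonneg _)

/-- The upper bound for consecutive elements. -/
lemma consecutive_upper (E : ℕ → Set Ω) (ω : Ω)
    (h : ∀ δ : ℝ, 0 < δ → ∀ᶠ X : ℕ in atTop, ¬ HasGap E X ((1 + δ) * Real.log X ^ 2) ω) (δ : ℝ) (hδ : 0 < δ) :
    ∀ᶠ a : ℕ in atTop, ∀ b, Consecutive E ω a b → (b : ℝ) - a ≤ (1 + δ) * Real.log a ^ 2 := by
  obtain ⟨X₀, hX₀⟩ := eventually_atTop.1 (h (min (δ / 2) 1) (lt_min (by linarith) one_pos))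
  have hlog : ∀ᶠ a : ℕ in atTop, 4 * Real.log a ^ 2 ≤ a / 2 ∧ 1 ≤ Real.log a ∧ 16 / δ ≤ Real.log a := by
    have h1 : Tendsto (fun a : ℕ => Real.log a) atTop atTop := Real.tendsto_log_atTop.comp tendsto_natCast_atTop_atTop
    have h2 : (fun x : ℝ => Real.log x ^ 2) =o[atTop] (fun x : ℝ => x) := Real.isLittleO_pow_log_id_atTop
    have h3 := (h2.bound (show (0 : ℝ) < 1 / 8 by norm_num))
    have h4 := tendsto_natCast_atTop_atTop.eventually h3
    filter_upwards [h4, h1.eventually_ge_atTop 1, h1.eventually_ge_atTop (16 / δ)] with a ha hb hc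
    refine ⟨?_, hb, hc⟩
    rw [Real.norm_of_nonneg (sq_nonneg _), Real.norm_of_nonneg (by positivity)] at ha
    linarith
  obtain ⟨A₀, hA₀⟩ := eventually_atTop.1 hlog
  filter_upwards [eventually_ge_atTop (max (max X₀ A₀) 3)] with a ha b hab
  obtain ⟨h3, hlt, hEa, hEb, hc⟩ := hab
  have ha0 : X₀ ≤ a := ((le_max_left _ _).trans (le_max_left _ _)).trans ha
  have ha1 : A₀ ≤ a := ((le_max_right _ _).trans (le_max_left _ _)).trans ha
  have hno := hX₀ b (by omega)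
  have hbd : (b : ℝ) - a < (1 + min (δ / 2) 1) * Real.log b ^ 2 := by
    by_contra hcon
    exact hno ⟨a, b, h3, hlt, le_rfl, hEa, hEb, hc, not_lt.1 hcon⟩
  obtain ⟨hb1, hb2, -⟩ := hA₀ b (by omega)
  obtain ⟨ha2, ha3, ha4⟩ := hA₀ a ha1
  have ha0' : (0 : ℝ) < a := by exact_mod_cast (by omega : 0 < a)
  have hb0' : (0 : ℝ) < b := by exact_mod_cast (by omega : 0 < b)
  have hmin1 : min (δ / 2) 1 ≤ 1 := min_le_right _ _
  have hmin2 : min (δ / 2) 1 ≤ δ / 2 := min_le_left _ _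
  have hmin0 : 0 < min (δ / 2) 1 := lt_min (by linarith) one_pos
  -- `b ≤ 2 a`
  have hb2a : (b : ℝ) ≤ 2 * a := by
    have : (b : ℝ) - a < b / 2 := by nlinarith [sq_nonneg (Real.log b)]
    linarith
  have hlb : Real.log b ≤ Real.log a + 1 := by
    have h5 : Real.log b ≤ Real.log (2 * a) := Real.log_le_log hb0' hb2a
    rw [Real.log_mul (by norm_num) ha0'.ne'] at h5
    have := Real.log_two_lt_d9
    linarith
  have hsq : Real.log b ^ 2 ≤ (Real.log a + 1) ^ 2 := pow_le_pow_left₀ (by linarith) hlb 2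
  have h6 : (1 + min (δ / 2) 1) * Real.log b ^ 2 ≤ (1 + δ) * Real.log a ^ 2 := by
    have h7 : (1 + min (δ / 2) 1) * Real.log b ^ 2 ≤ (1 + min (δ / 2) 1) * (Real.log a + 1) ^ 2 :=
      mul_le_mul_of_nonneg_left hsq (by linarith)
    have h8 : (1 + min (δ / 2) 1) * (2 * Real.log a + 1) ≤ δ / 2 * Real.log a ^ 2 := by
      have h9 : 16 ≤ δ * Real.log a := by
        rw [div_le_iff₀ hδ] at ha4
        linarith
      have h10 : (1 + min (δ / 2) 1) * (2 * Real.log a + 1) ≤ 2 * (3 * Real.log a) := by nlinarith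
      nlinarith
    have h11 : (1 + min (δ / 2) 1) * Real.log a ^ 2 ≤ (1 + δ / 2) * Real.log a ^ 2 :=
      mul_le_mul_of_nonneg_right (by linarith) (sq_nonneg _)
    nlinarith
  linarith

/-- The lower bound for infinitely many pairs of consecutive elements. -/
lemma consecutive_lower (E : ℕ → Set Ω) (ω : Ω) (δ : ℝ) (hδ' : δ < 1)
    (h : ∀ᶠ X : ℕ in atTop, HasGap E X ((1 - δ) * Real.log X ^ 2) ω) (A₀ : ℕ) :
    ∃ a b : ℕ, A₀ ≤ a ∧ Consecutive E ω a b ∧ (1 - δ) * Real.log a ^ 2 ≤ (b : ℝ) - a := by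
  by_contra hcon
  push Not at hcon
  have hfin : {b | ∃ a < A₀, Consecutive E ω a b}.Finite := by
    have : {b | ∃ a < A₀, Consecutive E ω a b} = ⋃ a ∈ Set.Iio A₀, {b | Consecutive E ω a b} := by
      ext b
      simp
    rw [this]
    refine (Set.finite_Iio A₀).biUnion fun a _ => Set.Subsingleton.finite fun b hb b' hb' => ?_
    obtain ⟨-, h1, -, h2, h3⟩ := hb
    obtain ⟨-, h1', -, h2', h3'⟩ := hb'
    rcases lt_trichotomy b b' with h | h | h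
    · exact absurd h2 (h3' b h1 h)
    · exact h
    · exact absurd h2' (h3 b' h1' h)
  obtain ⟨B₀, hB₀⟩ := hfin.bddAbove
  have h1 : Tendsto (fun X : ℕ => (1 - δ) * Real.log X ^ 2) atTop atTop := by
    have h2 : Tendsto (fun a : ℕ => Real.log a) atTop atTop := Real.tendsto_log_atTop.comp tendsto_natCast_atTop_atTop
    exact ((tendsto_pow_atTop (by norm_num : (2 : ℕ) ≠ 0)).comp h2).const_mul_atTop (by linarith)
  obtain ⟨X, hX1, hX2, hX3⟩ := (h.and ((h1.eventually_gt_atTop (B₀ : ℝ)).and (eventually_ge_atTop 3))).exists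
  obtain ⟨a, b, g1, g2, g3, g4, g5, g6, g7⟩ := hX1
  have hC : Consecutive E ω a b := ⟨g1, g2, g4, g5, g6⟩
  rcases lt_or_ge a A₀ with hlt | hge
  · have hb : b ≤ B₀ := hB₀ ⟨a, hlt, hC⟩
    have hb' : (b : ℝ) ≤ B₀ := by exact_mod_cast hb
    have ha0 : (0 : ℝ) ≤ a := by positivity
    linarith
  · have h5 := hcon a b hge hC
    have ha1 : (1 : ℝ) ≤ a := by exact_mod_cast (by omega : 1 ≤ a)
    have haX : (a : ℝ) ≤ X := by exact_mod_cast (by omega : a ≤ X)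
    have h6 : Real.log a ^ 2 ≤ Real.log X ^ 2 :=
      pow_le_pow_left₀ (Real.log_nonneg ha1) (Real.log_le_log (by linarith) haX) 2
    have h7 : (1 - δ) * Real.log a ^ 2 ≤ (1 - δ) * Real.log X ^ 2 := mul_le_mul_of_nonneg_left h6 (by linarith)
    linarith

end Pool.Agent.Q51.LI
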