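import Pool.Agent.Q51.LI.Bonf

/-!
# The probability that a random set with limited independence avoids a finite set
-/

namespace Pool.Agent.Q51.LI

open Finset MeasureTheory

variable {Ω : Type} [MeasurableSpace Ω]

/-- The events `E n`, `3 ≤ n ≤ X`, are measurable, and any at most `k` of them are independent and have the probabilities
`1 / log n`: the random set `A = {n : E n}` is a random set of Cramér with `k`-wise independence instead of independence. -/
def IsRandomSet (P : Measure Ω) (k X : ℕ) (E : ℕ → Set Ω) : Prop :=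
  (∀ n ∈ Icc 3 X, MeasurableSet (E n)) ∧
    ∀ S : Finset ℕ, S ⊆ Icc 3 X → S.card ≤ k → P (⋂ n ∈ S, E n) = ENNReal.ofReal (∏ n ∈ S, 1 / Real.log n)

/-- no element of `S` belongs to the random set -/
def void (E : ℕ → Set Ω) (S : Finset ℕ) : Set Ω := {ω | ∀ n ∈ S, ω ∉ E n}

/-- the probability of `n` -/
noncomputable def pr (n : ℕ) : ℝ := 1 / Real.log n

/-- indicator functions -/
noncomputable def ind (E : ℕ → Set Ω) (ω : Ω) (n : ℕ) : ℝ := (E n).indicator (fun _ => (1 : ℝ)) ω

lemma ind_mem (E : ℕ → Set Ω) (ω : Ω) (n : ℕ) : 0 ≤ ind E ω n ∧ ind E ω n ≤ 1 := by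
  classical
  unfold ind
  rw [Set.indicator_apply]
  split_ifs <;> norm_num

lemma prod_ind (E : ℕ → Set Ω) (ω : Ω) (T : Finset ℕ) :
    ∏ n ∈ T, ind E ω n = (⋂ n ∈ T, E n).indicator (fun _ => (1 : ℝ)) ω := by
  classical
  by_cases h : ω ∈ ⋂ n ∈ T, E n
  · rw [Set.indicator_of_mem h]
    refine prod_eq_one fun n hn => ?_
    unfold ind
    rw [Set.indicator_of_mem]
    exact Set.mem_iInter₂.1 h n hn
  · rw [Set.indicator_of_notMem h]
    rw [Set.mem_iInter₂] at h
    push Not at h
    obtain ⟨n, hn, hne⟩ := h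
    refine prod_eq_zero hn ?_
    unfold ind
    rw [Set.indicator_of_notMem hne]

lemma prod_one_sub_ind (E : ℕ → Set Ω) (ω : Ω) (T : Finset ℕ) :
    ∏ n ∈ T, (1 - ind E ω n) = (void E T).indicator (fun _ => (1 : ℝ)) ω := by
  classical
  by_cases h : ω ∈ void E T
  · rw [Set.indicator_of_mem h]
    refine prod_eq_one fun n hn => ?_
    unfold ind
    rw [Set.indicator_of_notMem (h n hn), sub_zero]
  · rw [Set.indicator_of_notMem h]
    unfold void at h
    simp only [Set.mem_setOf_eq] at h
    push Not at h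
    obtain ⟨n, hn, hne⟩ := h
    refine prod_eq_zero hn ?_
    unfold ind
    rw [Set.indicator_of_mem hne, sub_self]

variable {P : Measure Ω} {k X : ℕ} {E : ℕ → Set Ω}

lemma log_pos' {n : ℕ} (hn : 3 ≤ n) : 1 < Real.log n := by
  have h3 : Real.exp 1 < 3 := lt_trans Real.exp_one_lt_d9 (by norm_num)
  have h : Real.exp 1 < n := lt_of_lt_of_le h3 (by exact_mod_cast hn)
  have := Real.log_lt_log (Real.exp_pos 1) h
  rwa [Real.log_exp] at this

lemma pr_mem {n : ℕ} (hn : 3 ≤ n) : 0 < pr n ∧ pr n < 1 := by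
  have h := log_pos' hn
  refine ⟨by unfold pr; positivity, ?_⟩
  unfold pr
  rw [div_lt_one (by linarith)]
  exact h

lemma measurable_inter (hE : IsRandomSet P k X E) {T : Finset ℕ} (hT : T ⊆ Icc 3 X) :
    MeasurableSet (⋂ n ∈ T, E n) :=
  Finset.measurableSet_biInter T fun n hn => hE.1 n (hT hn)

lemma measurable_void (hE : IsRandomSet P k X E) {T : Finset ℕ} (hT : T ⊆ Icc 3 X) :
    MeasurableSet (void E T) := by
  have : void E T = ⋂ n ∈ T, (E n)ᶜ := by
    ext ω
    simp [void]
  rw [this]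
  exact Finset.measurableSet_biInter T fun n hn => (hE.1 n (hT hn)).compl

lemma real_inter (hE : IsRandomSet P k X E) {T : Finset ℕ} (hT : T ⊆ Icc 3 X) (hc : T.card ≤ k) :
    P.real (⋂ n ∈ T, E n) = ∏ n ∈ T, pr n := by
  unfold Measure.real
  rw [hE.2 T hT hc, ENNReal.toReal_ofReal]
  · rfl
  · exact prod_nonneg fun n hn => by
      have := pr_mem (mem_Icc.1 (hT hn)).1
      exact this.1.le

lemma integrable_el [IsProbabilityMeasure P] (hE : IsRandomSet P k X E) {S : Finset ℕ} (hS : S ⊆ Icc 3 X) (j : ℕ) :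
    Integrable (fun ω => el (ind E ω) S j) P := by
  unfold el
  refine integrable_finset_sum _ fun T hT => ?_
  have hT' : T ⊆ Icc 3 X := (mem_powersetCard.1 hT).1.trans hS
  simp_rw [prod_ind]
  exact (integrable_const (1 : ℝ)).indicator (measurable_inter hE hT')

lemma integral_el [IsProbabilityMeasure P] (hE : IsRandomSet P k X E) {S : Finset ℕ} (hS : S ⊆ Icc 3 X) {j : ℕ} (hj : j ≤ k) :
    ∫ ω, el (ind E ω) S j ∂P = el pr S j := by
  unfold el
  rw [integral_finset_sum]
  · refine sum_congr rfl fun T hT => ?_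
    have hT' : T ⊆ Icc 3 X := (mem_powersetCard.1 hT).1.trans hS
    simp_rw [prod_ind]
    rw [integral_indicator (measurable_inter hE hT'), setIntegral_const, smul_eq_mul, mul_one,
      real_inter hE hT' (by rw [(mem_powersetCard.1 hT).2]; exact hj)]
  · intro T hT
    have hT' : T ⊆ Icc 3 X := (mem_powersetCard.1 hT).1.trans hS
    simp_rw [prod_ind]
    exact (integrable_const (1 : ℝ)).indicator (measurable_inter hE hT')

lemma integrable_B [IsProbabilityMeasure P] (hE : IsRandomSet P k X E) {S : Finset ℕ} (hS : S ⊆ Icc 3 X) (K : ℕ) :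
    Integrable (fun ω => B (ind E ω) S K) P := by
  unfold B
  exact integrable_finset_sum _ fun j _ => (integrable_el hE hS j).const_mul _

lemma integral_B [IsProbabilityMeasure P] (hE : IsRandomSet P k X E) {S : Finset ℕ} (hS : S ⊆ Icc 3 X) {K : ℕ} (hK : K ≤ k) :
    ∫ ω, B (ind E ω) S K ∂P = B pr S K := by
  unfold B
  rw [integral_finset_sum _ fun j _ => (integrable_el hE hS j).const_mul _]
  refine sum_congr rfl fun j hj => ?_
  rw [integral_const_mul, integral_el hE hS (by have := mem_range.1 hj; omega)]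

/-- The probability that the random set avoids `S` is the one of full independence, up to `2 e^(t μ) / t^k`. -/
theorem void_near [IsProbabilityMeasure P] (hk : 1 ≤ k) (hE : IsRandomSet P k X E) {S : Finset ℕ} (hS : S ⊆ Icc 3 X)
    (t : ℝ) (ht : 0 < t) :
    |P.real (void E S) - ∏ n ∈ S, (1 - pr n)| ≤ 2 * (Real.exp (t * ∑ n ∈ S, pr n) / t ^ k) := by
  have hpr : ∀ n ∈ S, 0 ≤ pr n ∧ pr n ≤ 1 := fun n hn => by
    have := pr_mem (mem_Icc.1 (hS hn)).1
    exact ⟨this.1.le, this.2.le⟩
  obtain ⟨K, rfl⟩ : ∃ K, k = K + 1 := ⟨k - 1, by omega⟩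
  have h1 := B_near pr S hpr K
  have h2 : |B pr S K - P.real (void E S)| ≤ el pr S (K + 1) := by
    have e1 : P.real (void E S) = ∫ ω, ∏ n ∈ S, (1 - ind E ω n) ∂P := by
      simp_rw [prod_one_sub_ind]
      rw [integral_indicator (measurable_void hE hS), setIntegral_const, smul_eq_mul, mul_one]
    have i1 : Integrable (fun ω => ∏ n ∈ S, (1 - ind E ω n)) P := by
      simp_rw [prod_one_sub_ind]
      exact (integrable_const (1 : ℝ)).indicator (measurable_void hE hS)
    rw [e1, ← integral_B hE hS (K := K) (by omega), ← integral_sub (integrable_B hE hS K) i1,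
      ← integral_el hE hS (j := K + 1) le_rfl]
    refine (abs_integral_le_integral_abs).trans (integral_mono_of_nonneg ?_ (integrable_el hE hS _) ?_)
    · exact Filter.Eventually.of_forall fun ω => abs_nonneg _
    · exact Filter.Eventually.of_forall fun ω => B_near (ind E ω) S (fun n _ => ind_mem E ω n) K
  have h3 := el_le pr S (fun n hn => (hpr n hn).1) (K + 1) t ht
  have h4 : P.real (void E S) - ∏ n ∈ S, (1 - pr n) =
      (B pr S K - ∏ n ∈ S, (1 - pr n)) - (B pr S K - P.real (void E S)) := by ring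
  rw [h4]
  refine (abs_sub _ _).trans ?_
  linarith

end Pool.Agent.Q51.LI
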